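import Mathlib

set_option autoImplicit false
set_option linter.unusedSectionVars false

namespace Pool.Agent.H884Z.SR

open Finset

section Pr

variable {Ω : Type} [Fintype Ω]

open Classical in
noncomputable def fs (p : Ω → Prop) : Finset Ω := univ.filter p

@[simp] lemma mem_fs {p : Ω → Prop} {g : Ω} : g ∈ fs p ↔ p g := by simp [fs]

noncomputable def pr (p : Ω → Prop) : ℝ := ((fs p).card : ℝ) / (Fintype.card Ω : ℝ)

lemma pr_mono {p p' : Ω → Prop} (h : ∀ g, p g → p' g) : pr p ≤ pr p' := by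
  unfold pr
  refine div_le_div_of_nonneg_right ?_ (Nat.cast_nonneg _)
  exact_mod_cast card_le_card (fun g hg => mem_fs.2 (h g (mem_fs.1 hg)))

lemma pr_exists {α : Type} (A : Finset α) (p : α → Ω → Prop) (ε : α → ℝ)
    (h : ∀ a ∈ A, pr (p a) ≤ ε a) : pr (fun g => ∃ a ∈ A, p a g) ≤ ∑ a ∈ A, ε a := by
  classical
  refine le_trans ?_ (sum_le_sum h)
  unfold pr
  rw [← sum_div]
  refine div_le_div_of_nonneg_right ?_ (Nat.cast_nonneg _)
  have : (fs fun g => ∃ a ∈ A, p a g) ⊆ A.biUnion fun a => fs (p a) := by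
    intro g hg
    obtain ⟨a, ha, hp⟩ := mem_fs.1 hg
    exact mem_biUnion.2 ⟨a, ha, mem_fs.2 hp⟩
  exact_mod_cast (card_le_card this).trans card_biUnion_le

lemma pr_exists_const {α : Type} (A : Finset α) (p : α → Ω → Prop) (ε : ℝ) (c : ℕ)
    (hc : A.card ≤ c) (hε : 0 ≤ ε)
    (h : ∀ a ∈ A, pr (p a) ≤ ε) : pr (fun g => ∃ a ∈ A, p a g) ≤ c * ε := by
  refine (pr_exists A p (fun _ => ε) h).trans ?_
  rw [sum_const, nsmul_eq_mul]
  exact mul_le_mul_of_nonneg_right (by exact_mod_cast hc) hε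

lemma pr_or (p p' : Ω → Prop) : pr (fun g => p g ∨ p' g) ≤ pr p + pr p' := by
  classical
  unfold pr
  rw [← add_div]
  refine div_le_div_of_nonneg_right ?_ (Nat.cast_nonneg _)
  have : (fs fun g => p g ∨ p' g) ⊆ fs p ∪ fs p' := by
    intro g hg
    simpa using hg
  exact_mod_cast (card_le_card this).trans (card_union_le _ _)

lemma exists_not_of_pr [Nonempty Ω] (p : Ω → Prop) (h : pr p < 1) : ∃ g, ¬ p g := by
  by_contra hc
  push Not at hc
  unfold pr at h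
  have : fs p = univ := eq_univ_of_forall fun g => mem_fs.2 (hc g)
  rw [this, card_univ, div_self (by positivity)] at h
  exact lt_irrefl _ h

lemma pr_false (p : Ω → Prop) (h : ∀ g, ¬ p g) : pr p = 0 := by
  unfold pr
  have : fs p = ∅ := eq_empty_of_forall_notMem fun g hg => h g (mem_fs.1 hg)
  rw [this]; simp

lemma pr_geom (p : ℕ → Ω → Prop) (n : ℕ) (h : ∀ i, 1 ≤ i → pr (p i) ≤ (1 / 8 : ℝ) ^ i) :
    pr (fun g => ∃ i ∈ Icc 1 n, p i g) ≤ 1 / 7 := by
  refine (pr_exists (Icc 1 n) p (fun i => (1 / 8 : ℝ) ^ i)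
    fun i hi => h i (mem_Icc.1 hi).1).trans ?_
  have : ∀ n : ℕ, ∑ i ∈ Icc 1 n, (1 / 8 : ℝ) ^ i = 1 / 7 - (1 / 7) * (1 / 8) ^ n := by
    intro n
    induction n with
    | zero => simp
    | succ n ih => rw [sum_Icc_succ_top (by omega), ih]; ring
  rw [this]
  have : (0 : ℝ) ≤ (1 / 7) * (1 / 8) ^ n := by positivity
  linarith

end Pr

/-- the block model -/
def Eg {d q M : ℕ} (g : Fin M × Fin d → Fin q) : Finset ((Fin d × Fin q) × Fin M) :=
  univ.filter fun e => g (e.2, e.1.1) = e.1.2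

lemma card_Eg {d q M : ℕ} (g : Fin M × Fin d → Fin q) : (Eg g).card = M * d := by
  have : Eg g = (univ : Finset (Fin M × Fin d)).image fun s => ((s.2, g s), s.1) := by
    ext ⟨⟨i, j⟩, y⟩
    simp only [Eg, mem_filter, mem_univ, true_and, mem_image, Prod.mk.injEq, Prod.exists]
    constructor
    · intro h; exact ⟨y, i, ⟨rfl, h⟩, rfl⟩
    · rintro ⟨a, b, ⟨rfl, h⟩, rfl⟩; exact h
  rw [this, card_image_of_injective]
  · simp
  · rintro ⟨a, b⟩ ⟨a', b'⟩ h
    simp only [Prod.mk.injEq] at h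
    rw [h.1.1, h.2]

lemma pr_sub {d q M : ℕ} (hq : 0 < q) (F : Finset ((Fin d × Fin q) × Fin M)) :
    pr (fun g : Fin M × Fin d → Fin q => F ⊆ Eg g) ≤ (1 / (q : ℝ)) ^ F.card := by
  classical
  by_cases hne : ∃ g0 : Fin M × Fin d → Fin q, F ⊆ Eg g0
  swap
  · push Not at hne
    rw [pr_false _ hne]; positivity
  obtain ⟨g0, hg0⟩ := hne
  let D : Finset (Fin M × Fin d) := F.image fun e => (e.2, e.1.1)
  have hD : D.card = F.card := by
    refine card_image_of_injOn ?_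
    rintro ⟨⟨i, j⟩, y⟩ h1 ⟨⟨i', j'⟩, y'⟩ h2 h
    have h1' := (mem_filter.1 (hg0 h1)).2
    have h2' := (mem_filter.1 (hg0 h2)).2
    simp only [Prod.mk.injEq] at h h1' h2' ⊢
    obtain ⟨rfl, rfl⟩ := h
    exact ⟨⟨rfl, h1'.symm.trans h2'⟩, rfl⟩
  let t : Fin M × Fin d → Finset (Fin q) := fun s => if s ∈ D then {g0 s} else univ
  have hsub : (fs fun g : Fin M × Fin d → Fin q => F ⊆ Eg g) ⊆ Fintype.piFinset t := by
    intro g hg
    have hg' := mem_fs.1 hg
    rw [Fintype.mem_piFinset]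
    intro s
    simp only [t]
    split_ifs with hs
    · obtain ⟨e, he, rfl⟩ := mem_image.1 hs
      have h1 := (mem_filter.1 (hg0 he)).2
      have h2 := (mem_filter.1 (hg' he)).2
      rw [mem_singleton, h1, h2]
    · exact mem_univ _
  have hcard : (Fintype.piFinset t).card * q ^ F.card = q ^ (M * d) := by
    rw [Fintype.card_piFinset, ← hD]
    have : ∀ s, (t s).card = if s ∈ D then 1 else q := by
      intro s; simp only [t]; split_ifs <;> simp
    simp only [this]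
    rw [prod_ite, prod_const, prod_const, one_pow, one_mul, ← pow_add]
    congr 1
    have h1 := card_filter_add_card_filter_not (s := (univ : Finset (Fin M × Fin d)))
      (fun s => s ∈ D)
    have h2 : (univ.filter fun s => s ∈ D) = D := by ext; simp
    rw [h2] at h1
    simp only [card_univ, Fintype.card_prod, Fintype.card_fin] at h1
    omega
  unfold pr
  have hq' : (0 : ℝ) < q := by exact_mod_cast hq
  simp only [Fintype.card_fun, Fintype.card_prod, Fintype.card_fin]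
  rw [div_le_iff₀ (by positivity), one_div, inv_pow, ← hcard]
  push_cast
  have h1 : (((fs fun g : Fin M × Fin d → Fin q => F ⊆ Eg g).card : ℕ) : ℝ) ≤
      (Fintype.piFinset t).card := by exact_mod_cast card_le_card hsub
  have h2 : ((q : ℝ) ^ F.card)⁻¹ * ((Fintype.piFinset t).card * (q : ℝ) ^ F.card) =
      (Fintype.piFinset t).card := by field_simp
  rw [h2]
  exact h1

section Ev

variable {X Y : Type} [Fintype X] [Fintype Y] [DecidableEq X] [DecidableEq Y]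

/-- a dense spot -/
def Sp (E : Finset (X × Y)) (s t e : ℕ) : Prop :=
  ∃ S : Finset X, S.card = s ∧ ∃ T : Finset Y, T.card = t ∧ e ≤ (E ∩ S ×ˢ T).card

/-- the two-part event -/
def Ev4 (E : Finset (X × Y)) (s w j e : ℕ) : Prop :=
  ∃ W : Finset X, W.card = w ∧ ∃ P ⊆ W, P.card = s ∧ ∃ F1 ⊆ E ∩ P ×ˢ univ, F1.card = j ∧
    ∃ F2 ⊆ E ∩ W ×ˢ (F1.image Prod.snd), F2.card = e ∧ Disjoint F1 F2

end Ev

lemma pr_Sp {d q M : ℕ} (hq : 0 < q) (s t e : ℕ) :
    pr (fun g : Fin M × Fin d → Fin q => Sp (Eg g) s t e) ≤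
      ((d * q).choose s : ℝ) * ((M.choose t : ℝ) * (((s * t).choose e : ℝ) * (1 / (q : ℝ)) ^ e)) := by
  refine le_trans (pr_mono (p' := fun g => ∃ S ∈ powersetCard s (univ : Finset (Fin d × Fin q)),
    ∃ T ∈ powersetCard t (univ : Finset (Fin M)), ∃ F ∈ powersetCard e (S ×ˢ T), F ⊆ Eg g) ?_) ?_
  · rintro g ⟨S, hS, T, hT, he⟩
    obtain ⟨F, hF, hFc⟩ := exists_subset_card_eq he
    exact ⟨S, mem_powersetCard.2 ⟨subset_univ _, hS⟩, T, mem_powersetCard.2 ⟨subset_univ _, hT⟩,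
      F, mem_powersetCard.2 ⟨hF.trans inter_subset_right, hFc⟩, hF.trans inter_subset_left⟩
  refine pr_exists_const _ _ _ _ (by simp) (by positivity) fun S hS => ?_
  refine pr_exists_const _ _ _ _ (by simp) (by positivity) fun T hT => ?_
  refine pr_exists_const _ _ _ _ (by
    rw [card_powersetCard, card_product, (mem_powersetCard.1 hS).2, (mem_powersetCard.1 hT).2])
    (by positivity) fun F hF => ?_
  rw [← (mem_powersetCard.1 hF).2]
  exact pr_sub hq F

lemma pr_Ev4 {d q M : ℕ} (hq : 0 < q) (s w j e : ℕ) :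
    pr (fun g : Fin M × Fin d → Fin q => Ev4 (Eg g) s w j e) ≤
      ((d * q).choose w : ℝ) * (((2 ^ w : ℕ) : ℝ) * (((s * M).choose j : ℝ) *
        (((w * j).choose e : ℝ) * (1 / (q : ℝ)) ^ (j + e)))) := by
  refine le_trans (pr_mono (p' := fun g => ∃ W ∈ powersetCard w (univ : Finset (Fin d × Fin q)),
    ∃ P ∈ powersetCard s W, ∃ F1 ∈ powersetCard j (P ×ˢ (univ : Finset (Fin M))),
      ∃ F2 ∈ powersetCard e (W ×ˢ (F1.image Prod.snd)), Disjoint F1 F2 ∧ F1 ∪ F2 ⊆ Eg g) ?_) ?_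
  · rintro g ⟨W, hW, P, hP, hPc, F1, hF1, hF1c, F2, hF2, hF2c, hd⟩
    exact ⟨W, mem_powersetCard.2 ⟨subset_univ _, hW⟩, P, mem_powersetCard.2 ⟨hP, hPc⟩,
      F1, mem_powersetCard.2 ⟨hF1.trans inter_subset_right, hF1c⟩,
      F2, mem_powersetCard.2 ⟨hF2.trans inter_subset_right, hF2c⟩, hd,
      union_subset (hF1.trans inter_subset_left) (hF2.trans inter_subset_left)⟩
  refine pr_exists_const _ _ _ _ (by simp) (by positivity) fun W hW => ?_
  refine pr_exists_const _ _ _ _ (by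
    rw [card_powersetCard, (mem_powersetCard.1 hW).2]; exact Nat.choose_le_two_pow _ _)
    (by positivity) fun P hP => ?_
  refine pr_exists_const _ _ _ _ (by
    rw [card_powersetCard, card_product, (mem_powersetCard.1 hP).2]; simp)
    (by positivity) fun F1 hF1 => ?_
  refine pr_exists_const _ _ _ _ (by
    rw [card_powersetCard, card_product, (mem_powersetCard.1 hW).2]
    refine Nat.choose_le_choose _ (Nat.mul_le_mul_left _ ?_)
    rw [← (mem_powersetCard.1 hF1).2]; exact card_image_le)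
    (by positivity) fun F2 hF2 => ?_
  by_cases hd : Disjoint F1 F2
  · rw [← (mem_powersetCard.1 hF1).2, ← (mem_powersetCard.1 hF2).2, ← card_union_of_disjoint hd]
    exact (pr_mono fun g hg => hg.2).trans (pr_sub hq _)
  · rw [pr_false _ fun g hg => hd hg.1]; positivity

lemma choose_le3 (n k : ℕ) (hk : 0 < k) : (n.choose k : ℝ) ≤ (3 * (n : ℝ) / k) ^ k := by
  have h1 : (n.choose k : ℝ) ≤ (n : ℝ) ^ k / (k.factorial : ℝ) := Nat.choose_le_pow_div k n
  have h2 : (k : ℝ) ^ k / (k.factorial : ℝ) ≤ Real.exp k :=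
    Real.pow_div_factorial_le_exp (k : ℝ) (Nat.cast_nonneg k) k
  have h3 : Real.exp k ≤ 3 ^ k := by
    rw [← Real.exp_one_pow]
    exact pow_le_pow_left₀ (Real.exp_pos 1).le (by have := Real.exp_one_lt_d9; linarith) k
  have hk' : (0 : ℝ) < k := by exact_mod_cast hk
  have hf : (0 : ℝ) < (k.factorial : ℝ) := by exact_mod_cast k.factorial_pos
  refine h1.trans ?_
  rw [div_pow, mul_pow, div_le_div_iff₀ hf (by positivity)]
  have h4 : (k : ℝ) ^ k ≤ 3 ^ k * k.factorial := by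
    rw [div_le_iff₀ hf] at h2
    exact h2.trans (mul_le_mul_of_nonneg_right h3 hf.le)
  calc (n : ℝ) ^ k * (k : ℝ) ^ k ≤ (n : ℝ) ^ k * (3 ^ k * k.factorial) :=
        mul_le_mul_of_nonneg_left h4 (by positivity)
    _ = _ := by ring

lemma choose_le_pow' (n k a : ℕ) (hk : 0 < k) (v : ℝ) (h : 3 * (n : ℝ) ≤ v ^ a * k) :
    (n.choose k : ℝ) ≤ v ^ (a * k) := by
  have hk' : (0 : ℝ) < k := by exact_mod_cast hk
  refine (choose_le3 n k hk).trans ?_
  rw [pow_mul]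
  exact pow_le_pow_left₀ (by positivity) (by rwa [div_le_iff₀ hk']) k

lemma choose_q_le (n e q : ℕ) (he : 0 < e) (hq : 0 < q) (u : ℝ) (h : 3 * (n : ℝ) ≤ u * (e * q)) :
    (n.choose e : ℝ) * (1 / (q : ℝ)) ^ e ≤ u ^ e := by
  have he' : (0 : ℝ) < e := by exact_mod_cast he
  have hq' : (0 : ℝ) < q := by exact_mod_cast hq
  refine (mul_le_mul_of_nonneg_right (choose_le3 n e he) (by positivity)).trans ?_
  rw [← mul_pow]
  refine pow_le_pow_left₀ (by positivity) ?_ e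
  rw [div_mul_div_comm, mul_one, div_le_iff₀ (by positivity)]
  exact h

lemma final_pow (v : ℝ) (hv : 2 ≤ v) (a e i : ℕ) (h : a + 3 * i ≤ e) :
    v ^ a * (1 / v) ^ e ≤ (1 / 8 : ℝ) ^ i := by
  have hv0 : 0 < v := by linarith
  have h1 : (8 : ℝ) ^ i ≤ v ^ (3 * i) := by
    rw [pow_mul]
    refine pow_le_pow_left₀ (by norm_num) ?_ i
    calc (8 : ℝ) = 2 ^ 3 := by norm_num
      _ ≤ v ^ 3 := pow_le_pow_left₀ (by norm_num) hv 3
  have h2 : v ^ (a + 3 * i) ≤ v ^ e := pow_le_pow_right₀ (by linarith) h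
  rw [one_div, one_div, inv_pow, inv_pow, ← div_eq_mul_inv, div_le_iff₀ (by positivity),
    inv_mul_eq_div, le_div_iff₀ (by positivity)]
  calc v ^ a * 8 ^ i ≤ v ^ a * v ^ (3 * i) := mul_le_mul_of_nonneg_left h1 (by positivity)
    _ = v ^ (a + 3 * i) := by rw [pow_add]
    _ ≤ _ := h2

lemma pr_Sp' {d q M : ℕ} (hq : 0 < q) (s t e a b i : ℕ) (hs : 0 < s) (ht : 0 < t) (he : 0 < e)
    (v : ℝ) (hv : 2 ≤ v) (h1 : 3 * ((d * q : ℕ) : ℝ) ≤ v ^ a * s) (h2 : 3 * (M : ℝ) ≤ v ^ b * t)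
    (h3 : 3 * ((s * t : ℕ) : ℝ) ≤ (1 / v) * (e * q)) (h4 : a * s + b * t + 3 * i ≤ e) :
    pr (fun g : Fin M × Fin d → Fin q => Sp (Eg g) s t e) ≤ (1 / 8 : ℝ) ^ i := by
  have hv0 : 0 < v := by linarith
  refine (pr_Sp hq s t e).trans (le_trans ?_ (final_pow v hv _ e i h4))
  rw [pow_add, mul_assoc]
  gcongr
  · exact choose_le_pow' _ _ _ hs v h1
  · exact choose_le_pow' _ _ _ ht v h2
  · exact choose_q_le _ _ _ he hq _ h3

lemma pr_Ev4' {d q M : ℕ} (hq : 0 < q) (s w j e a b : ℕ) (hw : 0 < w) (hj : 0 < j) (he : 0 < e)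
    (v : ℝ) (hv : 2 ≤ v) (h1 : 3 * ((d * q : ℕ) : ℝ) ≤ v ^ a * w)
    (h2 : 3 * ((s * M : ℕ) : ℝ) ≤ v ^ b * (j * q))
    (h3 : 3 * ((w * j : ℕ) : ℝ) ≤ (1 / v) * (e * q)) (h4 : a * w + (w + b * j) + 3 * s ≤ e) :
    pr (fun g : Fin M × Fin d → Fin q => Ev4 (Eg g) s w j e) ≤ (1 / 8 : ℝ) ^ s := by
  have hv0 : 0 < v := by linarith
  refine (pr_Ev4 hq s w j e).trans (le_trans ?_ (final_pow v hv _ e s h4))
  have e1 := choose_le_pow' _ _ _ hw v h1
  have e2 : ((2 ^ w : ℕ) : ℝ) ≤ v ^ w := by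
    push_cast; exact pow_le_pow_left₀ (by norm_num) hv w
  have e3 := choose_q_le _ _ _ hj hq _ h2
  have e4 := choose_q_le _ _ _ he hq _ h3
  rw [← pow_mul] at e3
  calc _ = ((d * q).choose w : ℝ) * (((2 ^ w : ℕ) : ℝ) *
        ((((s * M).choose j : ℝ) * (1 / (q : ℝ)) ^ j) *
        (((w * j).choose e : ℝ) * (1 / (q : ℝ)) ^ e))) := by rw [pow_add]; ring
    _ ≤ v ^ (a * w) * (v ^ w * (v ^ (b * j) * (1 / v) ^ e)) := by gcongr
    _ = _ := by rw [pow_add, pow_add]; ring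

end Pool.Agent.H884Z.SR
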