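import Pool.Agent.H884Z.SR.Strat
import Pool.Agent.H884Z.SR.Prob

set_option autoImplicit false
set_option linter.unusedSectionVars false

namespace Pool.Agent.H884Z.SR

open Finset

section Clean

variable {X Y : Type} [Fintype X] [Fintype Y] [DecidableEq X] [DecidableEq Y]

lemma card_inter_prod1 (H : Finset (X × Y)) (S : Finset X) (T : Finset Y) :
    (H ∩ S ×ˢ T).card = ∑ x ∈ S, (nb1 H x ∩ T).card := by
  rw [card_eq_sum_card_fiberwise (f := Prod.fst) (t := S)
    (fun e he => (mem_product.1 (mem_inter.1 he).2).1)]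
  refine sum_congr rfl fun x hx => ?_
  refine card_bij (fun e _ => e.2) ?_ ?_ ?_
  · rintro ⟨a, b⟩ he
    simp only [mem_filter, mem_inter, mem_product] at he
    obtain ⟨⟨h1, h2, h3⟩, rfl⟩ := he
    simp [h1, h3]
  · rintro ⟨a, b⟩ he ⟨a', b'⟩ he' h
    simp only [mem_filter] at he he' h
    rw [he.2, he'.2, h]
  · intro y hy
    simp only [mem_inter, mem_nb1] at hy
    exact ⟨(x, y), by simp [hy.1, hy.2, hx], rfl⟩

lemma card_inter_prod2 (H : Finset (X × Y)) (S : Finset X) (T : Finset Y) :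
    (H ∩ S ×ˢ T).card = ∑ y ∈ T, (nb2 H y ∩ S).card := by
  rw [card_eq_sum_card_fiberwise (f := Prod.snd) (t := T)
    (fun e he => (mem_product.1 (mem_inter.1 he).2).2)]
  refine sum_congr rfl fun y hy => ?_
  refine card_bij (fun e _ => e.1) ?_ ?_ ?_
  · rintro ⟨a, b⟩ he
    simp only [mem_filter, mem_inter, mem_product] at he
    obtain ⟨⟨h1, h2, h3⟩, rfl⟩ := he
    simp [h1, h2]
  · rintro ⟨a, b⟩ he ⟨a', b'⟩ he' h
    simp only [mem_filter] at he he' h
    rw [he.2, he'.2, h]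
  · intro x hx
    simp only [mem_inter, mem_nb2] at hx
    exact ⟨(x, y), by simp [hx.1, hx.2, hy], rfl⟩

lemma clean [Nonempty X] (E : Finset (X × Y)) (K1 K2 : ℕ) (h1 : 1 ≤ K1) (h2 : 1 ≤ K2)
    (hE : Fintype.card X * K1 + Fintype.card Y * K2 ≤ E.card) :
    ∃ H ⊆ E, H.Nonempty ∧ (∀ x ∈ H.image Prod.fst, K1 ≤ (nb1 H x).card) ∧
      (∀ y ∈ H.image Prod.snd, K2 ≤ (nb2 H y).card) := by
  let f : Finset (X × Y) → ℤ := fun H => 2 * (H.card : ℤ) -
    (2 * K1 - 1) * ((H.image Prod.fst).card : ℤ) - (2 * K2 - 1) * ((H.image Prod.snd).card : ℤ)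
  obtain ⟨H, hH, hmax⟩ := exists_max_image E.powerset f ⟨∅, by simp⟩
  have hHE := mem_powerset.1 hH
  have k1 : (0 : ℤ) ≤ 2 * K1 - 1 := by omega
  have k2 : (0 : ℤ) ≤ 2 * K2 - 1 := by omega
  refine ⟨H, hHE, ?_, ?_, ?_⟩
  · rw [nonempty_iff_ne_empty]
    rintro rfl
    have h3 := hmax E (by simp)
    have a1 : ((E.image Prod.fst).card : ℤ) ≤ Fintype.card X := by
      exact_mod_cast card_le_univ _
    have a2 : ((E.image Prod.snd).card : ℤ) ≤ Fintype.card Y := by
      exact_mod_cast card_le_univ _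
    have a3 : (0 : ℤ) < Fintype.card X := by exact_mod_cast Fintype.card_pos
    have a4 : (0 : ℤ) ≤ Fintype.card Y := Int.natCast_nonneg _
    have hE' : (Fintype.card X : ℤ) * K1 + Fintype.card Y * K2 ≤ E.card := by exact_mod_cast hE
    have b1 := mul_le_mul_of_nonneg_left a1 k1
    have b2 := mul_le_mul_of_nonneg_left a2 k2
    simp only [f, card_empty, image_empty] at h3
    push_cast at h3
    linarith
  · intro x hx
    by_contra hc
    let H' := H \ ({x} ×ˢ univ)
    have h3 := hmax H' (mem_powerset.2 (sdiff_subset.trans hHE))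
    have a0 : H'.card + (nb1 H x).card = H.card := by
      have := card_inter_prod1 H {x} univ
      rw [sum_singleton, inter_univ] at this
      rw [← this]; exact card_sdiff_add_card_inter _ _
    have a1 : (H'.image Prod.fst).card + 1 ≤ (H.image Prod.fst).card := by
      rw [← card_erase_add_one hx]
      refine Nat.add_le_add_right (card_le_card ?_) _
      intro z hz
      obtain ⟨e, he, rfl⟩ := mem_image.1 hz
      simp only [H', mem_sdiff, mem_product, mem_singleton, mem_univ, and_true] at he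
      exact mem_erase.2 ⟨he.2, mem_image_of_mem _ he.1⟩
    have a2 : (H'.image Prod.snd).card ≤ (H.image Prod.snd).card :=
      card_le_card (image_subset_image sdiff_subset)
    have a0' : (H'.card : ℤ) + (nb1 H x).card = H.card := by exact_mod_cast a0
    have a1' : ((H'.image Prod.fst).card : ℤ) + 1 ≤ (H.image Prod.fst).card := by exact_mod_cast a1
    have a2' : ((H'.image Prod.snd).card : ℤ) ≤ (H.image Prod.snd).card := by exact_mod_cast a2
    have a3 : ((nb1 H x).card : ℤ) + 1 ≤ K1 := by exact_mod_cast (not_le.1 hc)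
    have b1 := mul_le_mul_of_nonneg_left a1' k1
    have b2 := mul_le_mul_of_nonneg_left a2' k2
    simp only [f] at h3
    linarith
  · intro y hy
    by_contra hc
    let H' := H \ (univ ×ˢ {y})
    have h3 := hmax H' (mem_powerset.2 (sdiff_subset.trans hHE))
    have a0 : H'.card + (nb2 H y).card = H.card := by
      have := card_inter_prod2 H univ {y}
      rw [sum_singleton, inter_univ] at this
      rw [← this]; exact card_sdiff_add_card_inter _ _
    have a1 : (H'.image Prod.snd).card + 1 ≤ (H.image Prod.snd).card := by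
      rw [← card_erase_add_one hy]
      refine Nat.add_le_add_right (card_le_card ?_) _
      intro z hz
      obtain ⟨e, he, rfl⟩ := mem_image.1 hz
      simp only [H', mem_sdiff, mem_product, mem_singleton, mem_univ, true_and] at he
      exact mem_erase.2 ⟨he.2, mem_image_of_mem _ he.1⟩
    have a2 : (H'.image Prod.fst).card ≤ (H.image Prod.fst).card :=
      card_le_card (image_subset_image sdiff_subset)
    have a0' : (H'.card : ℤ) + (nb2 H y).card = H.card := by exact_mod_cast a0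
    have a1' : ((H'.image Prod.snd).card : ℤ) + 1 ≤ (H.image Prod.snd).card := by exact_mod_cast a1
    have a2' : ((H'.image Prod.fst).card : ℤ) ≤ (H.image Prod.fst).card := by exact_mod_cast a2
    have a3 : ((nb2 H y).card : ℤ) + 1 ≤ K2 := by exact_mod_cast (not_le.1 hc)
    have b1 := mul_le_mul_of_nonneg_left a1' k2
    have b2 := mul_le_mul_of_nonneg_left a2' k1
    simp only [f] at h3
    linarith

lemma E1_of_Sp {E H : Finset (X × Y)} (hHE : H ⊆ E) (n ρ k K1 : ℕ)
    (hd : ∀ x ∈ H.image Prod.fst, K1 ≤ (nb1 H x).card)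
    (hY : 372 * (ρ * n) ≤ Fintype.card Y)
    (hsp : ∀ s, 1 ≤ s → k * s ≤ 2 * n → ¬ Sp E s (186 * (k * ρ) * s) (K1 * s)) :
    E1 H n ρ k := by
  intro S hS hk
  rcases S.eq_empty_or_nonempty with rfl | hne
  · simp
  by_contra hc
  obtain ⟨T, hT, hTc⟩ := exists_superset_card_eq (not_le.1 hc).le (by
    have : 186 * ρ * (k * S.card) ≤ 186 * ρ * (2 * n) := Nat.mul_le_mul_left _ hk
    nlinarith)
  refine hsp S.card (card_pos.2 hne) hk ⟨S, rfl, T, hTc, ?_⟩
  refine le_trans ?_ (card_le_card (inter_subset_inter hHE (subset_refl _)))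
  rw [card_inter_prod1, mul_comm, ← smul_eq_mul]
  refine card_nsmul_le_sum _ _ _ fun x hx => ?_
  rw [inter_eq_left.2 ((subset_biUnion_of_mem _ hx).trans hT)]
  exact hd x (hS hx)

lemma EA_of_Sp {E H : Finset (X × Y)} (hHE : H ⊆ E) (n k K : ℕ)
    (hd : ∀ y ∈ H.image Prod.snd, K ≤ (nb2 H y).card)
    (hX : 48 * n ≤ Fintype.card X)
    (hsp : ∀ j, 1 ≤ j → k * j ≤ 8 * n → ¬ Sp E (6 * k * j) j (K * j)) :
    EA H n k := by
  intro J hJ hk
  rcases J.eq_empty_or_nonempty with rfl | hne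
  · simp
  by_contra hc
  obtain ⟨W, hW, hWc⟩ := exists_superset_card_eq (not_le.1 hc).le (by nlinarith)
  refine hsp J.card (card_pos.2 hne) hk ⟨W, hWc, J, rfl, ?_⟩
  refine le_trans ?_ (card_le_card (inter_subset_inter hHE (subset_refl _)))
  rw [card_inter_prod2, mul_comm, ← smul_eq_mul]
  refine card_nsmul_le_sum _ _ _ fun y hy => ?_
  rw [inter_eq_left.2 ((subset_biUnion_of_mem _ hy).trans hW)]
  exact hd y (hJ hy)

lemma bad_lt [Nonempty X] {E H : Finset (X × Y)} (hHE : H ⊆ E) (k K' j w : ℕ) (hk : 2 * k ≤ K')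
    (hd : ∀ y ∈ H.image Prod.snd, 2 * K' ≤ (nb2 H y).card) (P Z : Finset X)
    (hw : (Z ∪ P).card ≤ w) (hwX : w ≤ Fintype.card X)
    (hev : ¬ Ev4 E P.card w j (K' * j)) :
    (univ.filter fun y => (∃ x ∈ P, (x, y) ∈ H) ∧ (nb2 H y \ Z).card < 2 * k).card < j := by
  by_contra hc
  obtain ⟨J, hJ, hJc⟩ := exists_subset_card_eq (not_lt.1 hc)
  obtain ⟨W, hW, hWc⟩ := exists_superset_card_eq hw hwX
  have hch : ∀ y : Y, ∃ x : X, y ∈ J → x ∈ P ∧ (x, y) ∈ H := by
    intro y
    by_cases hy : y ∈ J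
    · obtain ⟨x, hx⟩ := (mem_filter.1 (hJ hy)).2.1
      exact ⟨x, fun _ => hx⟩
    · exact ⟨Classical.arbitrary X, fun h => absurd h hy⟩
  choose π hπ using hch
  let F1 : Finset (X × Y) := J.image fun y => (π y, y)
  have hF1c : F1.card = j := by
    rw [card_image_of_injective _ (fun a b h => (Prod.mk.inj h).2), hJc]
  have hF1s : F1.image Prod.snd = J := by
    simp only [F1, image_image]
    exact image_id
  have hbig : K' * j ≤ ((H ∩ W ×ˢ J) \ F1).card := by
    have h1 : (K' + 1) * j ≤ (H ∩ W ×ˢ J).card := by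
      rw [card_inter_prod2, mul_comm, ← smul_eq_mul, ← hJc]
      refine card_nsmul_le_sum _ _ _ fun y hy => ?_
      have h2 := (mem_filter.1 (hJ hy)).2.2
      have h3 := hd y (mem_image.2 ⟨(π y, y), (hπ y hy).2, rfl⟩)
      have h4 := card_sdiff_add_card_inter (nb2 H y) Z
      have h5 : (nb2 H y ∩ Z).card ≤ (nb2 H y ∩ W).card :=
        card_le_card (inter_subset_inter (subset_refl _) (subset_union_left.trans hW))
      omega
    have h2 := le_card_sdiff F1 (H ∩ W ×ˢ J)
    rw [hF1c] at h2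
    rw [add_mul] at h1
    omega
  obtain ⟨F2, hF2, hF2c⟩ := exists_subset_card_eq hbig
  refine hev ⟨W, hWc, P, subset_union_right.trans hW, rfl, F1, ?_, hF1c, F2, ?_, hF2c, ?_⟩
  · intro e he
    obtain ⟨y, hy, rfl⟩ := mem_image.1 he
    exact mem_inter.2 ⟨hHE (hπ y hy).2, mem_product.2 ⟨(hπ y hy).1, mem_univ _⟩⟩
  · rw [hF1s]
    exact hF2.trans (sdiff_subset.trans (inter_subset_inter hHE (subset_refl _)))
  · exact disjoint_right.2 fun e he => (mem_sdiff.1 (hF2 he)).2

lemma EB1_of [Nonempty X] {E H : Finset (X × Y)} (hHE : H ⊆ E) (n ρ k K' w : ℕ) (hk : 2 * k ≤ K')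
    (hd : ∀ y ∈ H.image Prod.snd, 2 * K' ≤ (nb2 H y).card)
    (hw : n + 1 ≤ w) (hwX : w ≤ Fintype.card X)
    (hev : ¬ Ev4 E 1 w (k * ρ) (K' * (k * ρ))) : EB1 H n ρ k := by
  intro x Z hZ
  have := bad_lt hHE k K' (k * ρ) w hk hd {x} Z (by
    have := card_union_le Z {x}
    rw [card_singleton] at this; omega) hwX (by rwa [card_singleton])
  refine lt_of_le_of_lt (card_le_card ?_) this
  intro y hy
  simp only [mem_filter, mem_nb1] at hy
  simp [hy.1, hy.2]

lemma EB2_of [Nonempty X] {E H : Finset (X × Y)} (hHE : H ⊆ E) (n ρ k K' : ℕ) (hk1 : 1 ≤ k)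
    (hρ : 1 ≤ ρ) (hk : 2 * k ≤ K') (ha : k * (k * ρ) ≤ n)
    (hd : ∀ y ∈ H.image Prod.snd, 2 * K' ≤ (nb2 H y).card)
    (hX : 3654 * n ≤ Fintype.card X) (hY : 126 * n ≤ Fintype.card Y)
    (hev : ∀ s, 1 ≤ s → k * (k * ρ) * s ≤ 126 * n →
      ¬ Ev4 E s (29 * (k * (k * ρ) * s)) (k * ρ * s) (K' * (k * ρ * s)))
    (hsp : ∀ s, 1 ≤ s → k * (k * ρ) * s ≤ 126 * n → ¬ Sp E s (k * ρ * s) (7 * (k * ρ) * s)) :
    EB2 H n ρ k := by
  refine ⟨ha, fun P Z s hP hZ hs => ?_⟩
  rcases Nat.eq_zero_or_pos s with rfl | hs0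
  · have : P = ∅ := card_eq_zero.1 (by omega)
    simp [this]
  have hb1 : 1 ≤ k * ρ := Nat.mul_pos hk1 hρ
  have h1 : k * ρ * s ≤ k * (k * ρ) * s := by
    rw [mul_assoc k (k * ρ)]; exact Nat.le_mul_of_pos_left _ hk1
  have h2 : s ≤ k * ρ * s := Nat.le_mul_of_pos_left _ hb1
  obtain ⟨P', hP', hP'c⟩ := exists_superset_card_eq hP (by omega : s ≤ Fintype.card X)
  have h3 := bad_lt hHE k K' (k * ρ * s) (29 * (k * (k * ρ) * s)) hk hd P' Z (by
    have := card_union_le Z P'
    rw [mul_assoc 28] at hZ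
    omega) (by omega) (by rw [hP'c]; exact hev s hs0 hs)
  obtain ⟨J, hJ, hJc⟩ := exists_superset_card_eq h3.le (by omega)
  have h4 : (E ∩ P' ×ˢ J).card < 7 * (k * ρ) * s := by
    by_contra hc
    exact hsp s hs0 hs ⟨P', hP'c, J, hJc, not_lt.1 hc⟩
  refine le_trans ?_ ((card_le_card (inter_subset_inter hHE (subset_refl _))).trans h4.le)
  rw [card_inter_prod1]
  refine le_trans (sum_le_sum fun x hx => card_le_card ?_) (sum_le_sum_of_subset hP')
  intro y hy
  simp only [mem_filter, mem_nb1] at hy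
  refine mem_inter.2 ⟨mem_nb1.2 hy.1, hJ (mem_filter.2 ⟨mem_univ _, ⟨x, hP' hx, hy.1⟩, hy.2⟩)⟩

end Clean

end Pool.Agent.H884Z.SR
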