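import Mathlib

set_option autoImplicit false

namespace Pool.Agent.H884Z.SR

/-- Every colouring of the edges of `G` with `r` colours contains a monochromatic subgraph
isomorphic to `H`: an injective vertex map sending every edge of `H` to an edge of `G` of one
fixed colour `i`. -/
def Arrows {V W : Type} (G : SimpleGraph V) (r : ℕ) (H : SimpleGraph W) : Prop :=
  ∀ c : G.edgeSet → Fin r, ∃ (i : Fin r) (f : W → V), Function.Injective f ∧
    ∀ a b, H.Adj a b → ∃ h : s(f a, f b) ∈ G.edgeSet, c ⟨s(f a, f b), h⟩ = i

/-- The largest degree in `T` of a vertex of `A`. -/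
noncomputable def maxDeg {V : Type} (T : SimpleGraph V) (A : Finset V) : ℕ :=
  A.sup fun v => (T.neighborSet v).ncard

/-- Beck's parameter `n₁ Δ₁ + n₂ Δ₂` for the bipartition `V₁, V₂`. -/
noncomputable def beta {V : Type} (T : SimpleGraph V) (V₁ V₂ : Finset V) : ℕ :=
  V₁.card * maxDeg T V₁ + V₂.card * maxDeg T V₂

end Pool.Agent.H884Z.SR
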