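import Pool.Agent.H884Z.SR.Clean

set_option autoImplicit false
set_option linter.unusedSectionVars false

namespace Pool.Agent.H884Z.SR

open Finset

lemma le_vpow {v : ℝ} (hv : 2 ≤ v) {x a : ℕ} (h : x ≤ 2 ^ a) : (x : ℝ) ≤ v ^ a := by
  have : (x : ℝ) ≤ 2 ^ a := by exact_mod_cast h
  exact this.trans (pow_le_pow_left₀ (by norm_num) hv a)

lemma self_le_two_pow (k : ℕ) : k ≤ 2 ^ k := Nat.lt_two_pow_self.le

section Num

variable {r L n ρ k d q M K' : ℕ} (hr : 1 ≤ r) (hL : 1 ≤ L) (hrL : r ≤ 2 ^ L)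
  (hρ : 1 ≤ ρ) (hk : 1 ≤ k) (hK : K' = 1024 * (k * L)) (hd : d = 4 * r * K') (hq : 0 < q)
  (hM : M = ρ * (d * q)) (hN : 88000 * (r * n) ≤ d * q)

include hr hL hrL hρ hk hK hd hq hM hN

lemma num1 (s : ℕ) (hs : 1 ≤ s) (hks : k * s ≤ 2 * n) :
    pr (fun g : Fin M × Fin d → Fin q => Sp (Eg g) s (186 * (k * ρ) * s) (ρ * (2 * K') * s)) ≤
      (1 / 8 : ℝ) ^ s := by
  have hr' : (1 : ℝ) ≤ r := by exact_mod_cast hr
  have hk' : (1 : ℝ) ≤ k := by exact_mod_cast hk
  have hs' : (1 : ℝ) ≤ s := by exact_mod_cast hs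
  have hρ' : (1 : ℝ) ≤ ρ := by exact_mod_cast hρ
  have hK0 : 0 < K' := by rw [hK]; positivity
  obtain ⟨v, hv⟩ : ∃ v : ℝ, ((d * q : ℕ) : ℝ) = 1116 * r * k * s * v :=
    ⟨((d * q : ℕ) : ℝ) / (1116 * r * k * s), by field_simp⟩
  have hv2 : 2 ≤ v := by
    have h1 : 2232 * (r * (k * s)) ≤ d * q := by
      have := Nat.mul_le_mul_left r hks
      nlinarith
    have h2 : (2232 : ℝ) * (r * (k * s)) ≤ ((d * q : ℕ) : ℝ) := by exact_mod_cast h1
    rw [hv] at h2
    have h3 : (0 : ℝ) < 1116 * r * k * s := by positivity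
    nlinarith
  have b1 := le_vpow hv2 hrL
  have b2 := le_vpow hv2 (self_le_two_pow k)
  have hv0 : 0 < v := by linarith
  refine pr_Sp' hq _ _ _ (12 + L + k + 1) (5 + L + 1) s hs (by positivity) (by positivity) v hv2
    ?_ ?_ ?_ ?_
  · have b3 : ((3348 : ℕ) : ℝ) ≤ v ^ 12 := le_vpow hv2 (by norm_num)
    rw [hv, pow_add, pow_add, pow_add, pow_one]
    calc 3 * (1116 * (r : ℝ) * k * s * v) = ((3348 : ℕ) : ℝ) * r * k * v * s := by push_cast; ring
      _ ≤ _ := by gcongr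
  · have b3 : ((18 : ℕ) : ℝ) ≤ v ^ 5 := le_vpow hv2 (by norm_num)
    rw [hM, Nat.cast_mul, hv, pow_add, pow_add, pow_one]
    calc 3 * ((ρ : ℝ) * (1116 * (r : ℝ) * k * s * v)) =
        ((18 : ℕ) : ℝ) * r * v * ((186 * (k * ρ) * s : ℕ) : ℝ) := by push_cast; ring
      _ ≤ _ := by gcongr
  · have h1 : (4 : ℝ) * r * K' * q = 1116 * r * k * s * v := by
      rw [← hv, hd]; push_cast; ring
    have h2 : (2 : ℝ) * K' * q = 558 * k * s * v := by
      have : (r : ℝ) * (2 * K' * q) = r * (558 * k * s * v) := by linarith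
      exact mul_left_cancel₀ (by positivity) this
    refine le_of_eq ?_
    push_cast
    field_simp
    linear_combination (-1 : ℝ) * h2
  · have e1 : 1 ≤ k * L := Nat.mul_pos hk hL
    have e2 : L ≤ k * L := Nat.le_mul_of_pos_left _ hk
    have e3 : k ≤ k * L := Nat.le_mul_of_pos_right _ hL
    have e4 : k * L ≤ ρ * (k * L) := Nat.le_mul_of_pos_left _ hρ
    have e5 : ρ * k ≤ ρ * (k * L) := Nat.mul_le_mul_left _ e3
    have : (12 + L + k + 1) + (5 + L + 1) * (186 * (k * ρ)) + 3 ≤ ρ * (2 * K') := by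
      rw [hK]; nlinarith
    nlinarith

lemma num2 (hA : ρ ≤ 2 ^ (34 * (k * L))) (j : ℕ) (hj : 1 ≤ j) (hkj : k * j ≤ 8 * n) :
    pr (fun g : Fin M × Fin d → Fin q => Sp (Eg g) (6 * k * j) j (2 * K' * j)) ≤
      (1 / 8 : ℝ) ^ j := by
  have hr' : (1 : ℝ) ≤ r := by exact_mod_cast hr
  have hk' : (1 : ℝ) ≤ k := by exact_mod_cast hk
  have hs' : (1 : ℝ) ≤ j := by exact_mod_cast hj
  have hρ' : (1 : ℝ) ≤ ρ := by exact_mod_cast hρ
  have hK0 : 0 < K' := by rw [hK]; positivity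
  obtain ⟨v, hv⟩ : ∃ v : ℝ, ((d * q : ℕ) : ℝ) = 36 * r * k * j * v :=
    ⟨((d * q : ℕ) : ℝ) / (36 * r * k * j), by field_simp⟩
  have hv2 : 2 ≤ v := by
    have h1 : 72 * (r * (k * j)) ≤ d * q := by
      have := Nat.mul_le_mul_left r hkj
      nlinarith
    have h2 : (72 : ℝ) * (r * (k * j)) ≤ ((d * q : ℕ) : ℝ) := by exact_mod_cast h1
    rw [hv] at h2
    have h3 : (0 : ℝ) < 36 * r * k * j := by positivity
    nlinarith
  have b1 := le_vpow hv2 hrL
  have b2 := le_vpow hv2 (self_le_two_pow k)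
  have b4 := le_vpow hv2 hA
  have hv0 : 0 < v := by linarith
  refine pr_Sp' hq _ _ _ (5 + L + 1) (7 + 34 * (k * L) + L + k + 1) j (by positivity) hj
    (by positivity) v hv2 ?_ ?_ ?_ ?_
  · have b3 : ((18 : ℕ) : ℝ) ≤ v ^ 5 := le_vpow hv2 (by norm_num)
    rw [hv, pow_add, pow_add, pow_one]
    calc 3 * (36 * (r : ℝ) * k * j * v) = ((18 : ℕ) : ℝ) * r * v * ((6 * k * j : ℕ) : ℝ) := by
          push_cast; ring
      _ ≤ _ := by gcongr
  · have b3 : ((108 : ℕ) : ℝ) ≤ v ^ 7 := le_vpow hv2 (by norm_num)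
    rw [hM, Nat.cast_mul, hv, pow_add, pow_add, pow_add, pow_add, pow_one]
    calc 3 * ((ρ : ℝ) * (36 * (r : ℝ) * k * j * v)) =
        ((108 : ℕ) : ℝ) * ρ * r * k * v * j := by push_cast; ring
      _ ≤ _ := by gcongr
  · have h1 : (4 : ℝ) * r * K' * q = 36 * r * k * j * v := by
      rw [← hv, hd]; push_cast; ring
    have h2 : (2 : ℝ) * K' * q = 18 * k * j * v := by
      have : (r : ℝ) * (2 * K' * q) = r * (18 * k * j * v) := by linarith
      exact mul_left_cancel₀ (by positivity) this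
    refine le_of_eq ?_
    push_cast
    field_simp
    linear_combination (-1 : ℝ) * h2
  · have e1 : 1 ≤ k * L := Nat.mul_pos hk hL
    have e2 : L ≤ k * L := Nat.le_mul_of_pos_left _ hk
    have e3 : k ≤ k * L := Nat.le_mul_of_pos_right _ hL
    have : (5 + L + 1) * (6 * k) + (7 + 34 * (k * L) + L + k + 1) + 3 ≤ 2 * K' := by
      rw [hK]; nlinarith
    nlinarith

lemma num3 (hB : 2 ^ (34 * (k * L)) < ρ) (s : ℕ) (hs : 1 ≤ s) (hks : k * (k * ρ) * s ≤ 126 * n) :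
    pr (fun g : Fin M × Fin d → Fin q => Sp (Eg g) s (k * ρ * s) (7 * (k * ρ) * s)) ≤
      (1 / 8 : ℝ) ^ s := by
  have hr' : (1 : ℝ) ≤ r := by exact_mod_cast hr
  have hk' : (1 : ℝ) ≤ k := by exact_mod_cast hk
  have hs' : (1 : ℝ) ≤ s := by exact_mod_cast hs
  have hρ' : (1 : ℝ) ≤ ρ := by exact_mod_cast hρ
  have hK0 : 0 < K' := by rw [hK]; positivity
  have hK1 : (1 : ℝ) ≤ K' := by exact_mod_cast hK0
  obtain ⟨v, hv⟩ : ∃ v : ℝ, (2 * q : ℝ) = s * v := ⟨(2 * q : ℝ) / s, by field_simp⟩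
  have e1 : 1 ≤ k * L := Nat.mul_pos hk hL
  have e2 : L ≤ k * L := Nat.le_mul_of_pos_left _ hk
  have hbig : 6 * r * K' * s ≤ 2 * q := by
    have a1 : r ≤ 2 ^ (k * L) := hrL.trans (Nat.pow_le_pow_right (by norm_num) e2)
    have a2 : L ≤ 2 ^ (k * L) := (self_le_two_pow L).trans (Nat.pow_le_pow_right (by norm_num) e2)
    have a3 : 2 ^ 31 ≤ 2 ^ (31 * (k * L)) := Nat.pow_le_pow_right (by norm_num) (by omega)
    have a4 : 2 ^ 31 * (r * (L * L)) ≤ ρ := by
      refine le_trans ?_ hB.le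
      calc 2 ^ 31 * (r * (L * L)) ≤ 2 ^ (31 * (k * L)) * (2 ^ (k * L) * (2 ^ (k * L) * 2 ^ (k * L))) := by
            gcongr
        _ = _ := by rw [← pow_add, ← pow_add, ← pow_add]; congr 1; ring
    have a5 : r * (88000 * n) ≤ r * (4 * K' * q) := by rw [hd] at hN; nlinarith
    have a6 : 88000 * n ≤ 4 * K' * q := Nat.le_of_mul_le_mul_left a5 hr
    have a7 : k * k * s * (2 ^ 31 * (r * (L * L))) ≤ k * k * s * ρ := Nat.mul_le_mul_left _ a4
    have a8 : K' * (6 * r * K' * s) ≤ K' * (2 * q) := by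
      have : K' * (6 * r * K' * s) = 6 * 2 ^ 20 * (k * k * s * (r * (L * L))) := by
        rw [hK]; ring
      rw [this]
      nlinarith
    exact Nat.le_of_mul_le_mul_left a8 hK0
  have hv3 : 6 * (r : ℝ) * K' ≤ v := by
    have h2 : 6 * (r : ℝ) * K' * s ≤ 2 * q := by exact_mod_cast hbig
    rw [hv] at h2
    nlinarith
  have hv2 : 2 ≤ v := by nlinarith
  have hv0 : 0 < v := by linarith
  have hdq : ((d * q : ℕ) : ℝ) = 2 * r * K' * s * v := by
    rw [hd]; push_cast; linear_combination (2 * (r : ℝ) * K') * hv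
  refine pr_Sp' hq _ _ _ 2 2 s hs (by positivity) (by positivity) v hv2 ?_ ?_ ?_ ?_
  · rw [hdq]
    calc 3 * (2 * (r : ℝ) * K' * s * v) = (6 * r * K') * v * s := by ring
      _ ≤ v * v * s := by gcongr
      _ = _ := by ring
  · rw [hM, Nat.cast_mul, hdq]
    calc 3 * ((ρ : ℝ) * (2 * (r : ℝ) * K' * s * v)) = (6 * r * K') * v * (1 * ρ * s) := by ring
      _ ≤ v * v * (k * ρ * s) := by gcongr
      _ = _ := by push_cast; ring
  · push_cast
    rw [one_div, inv_mul_eq_div, le_div_iff₀ hv0]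
    have h1 : (0 : ℝ) ≤ k * ρ * s * q := by positivity
    calc 3 * ((s : ℝ) * (k * ρ * s)) * v = 3 * (k * ρ * s) * (s * v) := by ring
      _ = 6 * (k * ρ * s * q) := by rw [← hv]; ring
      _ ≤ 7 * (k * ρ * s * q) := by linarith
      _ = _ := by ring
  · have : s ≤ k * ρ * s := Nat.le_mul_of_pos_left _ (Nat.mul_pos hk hρ)
    nlinarith

lemma num4 (s w : ℕ) (hs : 1 ≤ s) (hw : 1 ≤ w) (hw1 : w ≤ 29 * (k * (k * ρ) * s))
    (hw2 : w ≤ 3654 * n) :
    pr (fun g : Fin M × Fin d → Fin q => Ev4 (Eg g) s w (k * ρ * s) (K' * (k * ρ * s))) ≤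
      (1 / 8 : ℝ) ^ s := by
  have hr' : (1 : ℝ) ≤ r := by exact_mod_cast hr
  have hk' : (1 : ℝ) ≤ k := by exact_mod_cast hk
  have hs' : (1 : ℝ) ≤ s := by exact_mod_cast hs
  have hw' : (1 : ℝ) ≤ w := by exact_mod_cast hw
  have hρ' : (1 : ℝ) ≤ ρ := by exact_mod_cast hρ
  have hK0 : 0 < K' := by rw [hK]; positivity
  obtain ⟨v, hv⟩ : ∃ v : ℝ, ((d * q : ℕ) : ℝ) = 12 * r * w * v :=
    ⟨((d * q : ℕ) : ℝ) / (12 * r * w), by field_simp⟩
  have hv2 : 2 ≤ v := by
    have h1 : 24 * (r * w) ≤ d * q := by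
      have := Nat.mul_le_mul_left r hw2
      nlinarith
    have h2 : (24 : ℝ) * (r * w) ≤ ((d * q : ℕ) : ℝ) := by exact_mod_cast h1
    rw [hv] at h2
    have h3 : (0 : ℝ) < 12 * r * w := by positivity
    nlinarith
  have b1 := le_vpow hv2 hrL
  have b2 := le_vpow hv2 (self_le_two_pow L)
  have hv0 : 0 < v := by linarith
  refine pr_Ev4' hq _ _ _ _ (6 + L + 1) (14 + L + L) hw (by positivity) (by positivity) v hv2
    ?_ ?_ ?_ ?_
  · have b3 : ((36 : ℕ) : ℝ) ≤ v ^ 6 := le_vpow hv2 (by norm_num)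
    rw [hv, pow_add, pow_add, pow_one]
    calc 3 * (12 * (r : ℝ) * w * v) = ((36 : ℕ) : ℝ) * r * v * w := by push_cast; ring
      _ ≤ _ := by gcongr
  · have b3 : ((12288 : ℕ) : ℝ) ≤ v ^ 14 := le_vpow hv2 (by norm_num)
    rw [hM, hd, hK, pow_add, pow_add]
    calc 3 * ((s * (ρ * (4 * r * (1024 * (k * L)) * q)) : ℕ) : ℝ) =
        ((12288 : ℕ) : ℝ) * r * L * (((k * ρ * s : ℕ) : ℝ) * q) := by push_cast; ring
      _ ≤ _ := by gcongr
  · have h1 : (4 : ℝ) * r * K' * q = 12 * r * w * v := by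
      rw [← hv, hd]; push_cast; ring
    have h2 : (K' : ℝ) * q = 3 * w * v := by
      have : (r : ℝ) * (K' * q) = r * (3 * w * v) := by linarith
      exact mul_left_cancel₀ (by positivity) this
    refine le_of_eq ?_
    push_cast
    field_simp
    linear_combination (-1 : ℝ) * h2
  · set b := k * ρ * s with hb
    have e0 : k * (k * ρ) * s = k * b := by rw [hb]; ring
    rw [e0] at hw1
    have e1 : s ≤ b := Nat.le_mul_of_pos_left _ (Nat.mul_pos hk hρ)
    have e2 : b ≤ k * b := Nat.le_mul_of_pos_left _ hk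
    have e3 : k * b ≤ L * (k * b) := Nat.le_mul_of_pos_left _ hL
    have e4 : L * b ≤ L * (k * b) := Nat.mul_le_mul_left _ e2
    have e5 : L * w ≤ L * (29 * (k * b)) := Nat.mul_le_mul_left _ hw1
    have e6 : K' * b = 1024 * (L * (k * b)) := by rw [hK]; ring
    rw [e6]
    nlinarith

end Num

theorem host (r L n ρ k : ℕ) (hr : 1 ≤ r) (hL : 1 ≤ L) (hrL : r ≤ 2 ^ L)
    (hρ : 1 ≤ ρ) (hk : 1 ≤ k) (hkn : k ≤ n) :
    ∃ (d q M : ℕ) (E : Finset ((Fin d × Fin q) × Fin M)),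
      E.card ≤ 720896000 * (r ^ 2 * L * (k * ρ * n)) ∧ 0 < M ∧
      ∀ E' ⊆ E, E.card ≤ r * E'.card → ∃ H ⊆ E', Strat H n ρ k := by
  have hn : 1 ≤ n := hk.trans hkn
  set K' := 1024 * (k * L) with hK
  have hK0 : 0 < K' := by positivity
  by_cases h0 : 4 * K' ≤ 88000 * n
  · set d := 4 * r * K' with hd
    have hd0 : 0 < d := by positivity
    set q := 88000 * (r * n) / d + 1 with hq
    have hq0 : 0 < q := Nat.succ_pos _
    have hN : 88000 * (r * n) ≤ d * q := (Nat.lt_mul_div_succ _ hd0).le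
    have hN2 : d * q ≤ 2 * (88000 * (r * n)) := by
      have h1 : d * (88000 * (r * n) / d) ≤ 88000 * (r * n) := Nat.mul_div_le _ _
      have h2 : d ≤ 88000 * (r * n) := by
        have := Nat.mul_le_mul_left r h0
        rw [hd]; nlinarith
      rw [hq, mul_add]; omega
    set M := ρ * (d * q) with hM
    have : Nonempty (Fin q) := ⟨⟨0, hq0⟩⟩
    have : Nonempty (Fin d) := ⟨⟨0, hd0⟩⟩
    let B := 126 * n
    let p1 : ℕ → (Fin M × Fin d → Fin q) → Prop := fun s g =>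
      k * s ≤ 2 * n ∧ Sp (Eg g) s (186 * (k * ρ) * s) (ρ * (2 * K') * s)
    let p2 : ℕ → (Fin M × Fin d → Fin q) → Prop := fun j g =>
      (ρ ≤ 2 ^ (34 * (k * L)) ∧ k * j ≤ 8 * n) ∧ Sp (Eg g) (6 * k * j) j (2 * K' * j)
    let p3 : ℕ → (Fin M × Fin d → Fin q) → Prop := fun s g =>
      (2 ^ (34 * (k * L)) < ρ ∧ k * (k * ρ) * s ≤ 126 * n) ∧
        Sp (Eg g) s (k * ρ * s) (7 * (k * ρ) * s)
    let p4 : ℕ → (Fin M × Fin d → Fin q) → Prop := fun s g =>
      Ev4 (Eg g) s (min (29 * (k * (k * ρ) * s)) (3654 * n)) (k * ρ * s) (K' * (k * ρ * s))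
    have q1 := pr_geom p1 B fun s hs => by
      by_cases hc : k * s ≤ 2 * n
      · exact (pr_mono fun g hg => hg.2).trans (num1 hr hL hrL hρ hk hK hd hq0 hM hN s hs hc)
      · rw [pr_false _ fun g hg => hc hg.1]; positivity
    have q2 := pr_geom p2 B fun s hs => by
      by_cases hc : ρ ≤ 2 ^ (34 * (k * L)) ∧ k * s ≤ 8 * n
      · exact (pr_mono fun g hg => hg.2).trans
          (num2 hr hL hrL hρ hk hK hd hq0 hM hN hc.1 s hs hc.2)
      · rw [pr_false _ fun g hg => hc hg.1]; positivity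
    have q3 := pr_geom p3 B fun s hs => by
      by_cases hc : 2 ^ (34 * (k * L)) < ρ ∧ k * (k * ρ) * s ≤ 126 * n
      · exact (pr_mono fun g hg => hg.2).trans
          (num3 hr hL hrL hρ hk hK hd hq0 hM hN hc.1 s hs hc.2)
      · rw [pr_false _ fun g hg => hc hg.1]; positivity
    have q4 := pr_geom p4 B fun s hs =>
      num4 hr hL hrL hρ hk hK hd hq0 hM hN s _ hs
        (le_min (Nat.succ_le_of_lt (by positivity)) (by omega)) (min_le_left _ _) (min_le_right _ _)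
    obtain ⟨g, hg⟩ := exists_not_of_pr (fun g => ((∃ i ∈ Icc 1 B, p1 i g) ∨ (∃ i ∈ Icc 1 B, p2 i g)) ∨
        ((∃ i ∈ Icc 1 B, p3 i g) ∨ (∃ i ∈ Icc 1 B, p4 i g))) (by
      have a1 := pr_or (fun g => (∃ i ∈ Icc 1 B, p1 i g) ∨ (∃ i ∈ Icc 1 B, p2 i g))
        (fun g => (∃ i ∈ Icc 1 B, p3 i g) ∨ (∃ i ∈ Icc 1 B, p4 i g))
      have a2 := pr_or (fun g => ∃ i ∈ Icc 1 B, p1 i g) (fun g => ∃ i ∈ Icc 1 B, p2 i g)
      have a3 := pr_or (fun g => ∃ i ∈ Icc 1 B, p3 i g) (fun g => ∃ i ∈ Icc 1 B, p4 i g)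
      linarith)
    simp only [not_or, not_exists, not_and, mem_Icc] at hg
    obtain ⟨⟨g1, g2⟩, g3, g4⟩ := hg
    have hrn : n ≤ r * n := Nat.le_mul_of_pos_left _ hr
    have hcX : Fintype.card (Fin d × Fin q) = d * q := by simp
    have hcY : Fintype.card (Fin M) = ρ * (d * q) := by simp [hM]
    have hle : ∀ a s : ℕ, 1 ≤ a → s ≤ a * s := fun a s ha => Nat.le_mul_of_pos_left _ ha
    refine ⟨d, q, M, Eg g, ?_, by positivity, fun E' hE' hcard => ?_⟩
    · rw [card_Eg]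
      calc M * d = ρ * (d * q) * (4 * r * (1024 * (k * L))) := rfl
        _ ≤ ρ * (2 * (88000 * (r * n))) * (4 * r * (1024 * (k * L))) := by gcongr
        _ = _ := by ring
    · obtain ⟨H, hH, hne, hd1, hd2⟩ := clean E' (ρ * (2 * K')) (2 * K') (Nat.succ_le_of_lt (by positivity))
        (by omega) (by
          rw [card_Eg] at hcard
          rw [hcX, hcY]
          have : r * (d * q * (ρ * (2 * K')) + ρ * (d * q) * (2 * K')) = M * d := by
            rw [hM]; conv_rhs => rw [hd]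
            ring
          exact Nat.le_of_mul_le_mul_left (this ▸ hcard) hr)
      have hHE := hH.trans hE'
      refine ⟨H, hH, strat_of H n ρ k hne hk hρ hkn ?_ ?_⟩
      · refine E1_of_Sp hHE n ρ k _ hd1 ?_ fun s hs hks hsp => g1 s ⟨hs, ?_⟩ ⟨hks, hsp⟩
        · rw [hcY]
          have : 372 * n ≤ d * q := by omega
          nlinarith
        · have := hle k s hk; omega
      · by_cases hA : ρ ≤ 2 ^ (34 * (k * L))
        · refine or2_A H n ρ k hk hρ hkn (EA_of_Sp hHE n k _ hd2 (by rw [hcX]; omega)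
            fun j hj hkj hsp => g2 j ⟨hj, ?_⟩ ⟨⟨hA, hkj⟩, hsp⟩)
          have := hle k j hk; omega
        · have h2k : 2 * k ≤ K' := by
            have : k ≤ k * L := Nat.le_mul_of_pos_right _ hL
            omega
          by_cases hB : k * (k * ρ) ≤ n
          · have hs' : ∀ s, k * (k * ρ) * s ≤ 126 * n → s ≤ B := fun s hs =>
              (hle _ s (Nat.succ_le_of_lt (by positivity))).trans hs
            refine or2_B2 H n ρ k hk hρ (EB2_of hHE n ρ k K' hk hρ h2k hB hd2 (by rw [hcX]; omega)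
              (by rw [hcY]; have := hle ρ (d * q) hρ; omega) (fun s hs hks hev => ?_)
              (fun s hs hks hsp => g3 s ⟨hs, hs' s hks⟩ ⟨⟨not_le.1 hA, hks⟩, hsp⟩))
            refine g4 s ⟨hs, hs' s hks⟩ ?_
            simp only [p4]
            rwa [min_eq_left (by omega)]
          · refine or2_B1 H n ρ k (EB1_of hHE n ρ k K'
              (min (29 * (k * (k * ρ) * 1)) (3654 * n)) h2k hd2 (le_min (by omega) (by omega))
              ((min_le_right _ _).trans (by rw [hcX]; omega)) fun hev => ?_)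
            refine g4 1 ⟨le_rfl, by omega⟩ ?_
            simp only [p4]
            rwa [mul_one (k * ρ)]
  · set d := 2 * r * (372 * n) with hd
    have hd0 : 0 < d := by positivity
    have : Nonempty (Fin d) := ⟨⟨0, hd0⟩⟩
    have hnk : n ≤ k * L := by omega
    have hc : (univ : Finset ((Fin d × Fin 1) × Fin (ρ * d))).card = d * (ρ * d) := by simp
    refine ⟨d, 1, ρ * d, univ, ?_, by positivity, fun E' _ hcard => ?_⟩
    · rw [hc]
      calc d * (ρ * d) = 553536 * (r ^ 2 * (ρ * n) * n) := by rw [hd]; ring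
        _ ≤ 720896000 * (r ^ 2 * (ρ * n) * (k * L)) := by gcongr; norm_num
        _ = _ := by ring
    · obtain ⟨H, hH, hne, hd1, hd2⟩ := clean E' (ρ * (372 * n)) (372 * n)
        (Nat.succ_le_of_lt (by positivity)) (by omega) (by
          rw [hc] at hcard
          simp only [Fintype.card_prod, Fintype.card_fin]
          have : r * (d * 1 * (ρ * (372 * n)) + ρ * d * (372 * n)) = d * (ρ * d) := by
            conv_rhs => rw [hd]
            ring
          exact Nat.le_of_mul_le_mul_left (this ▸ hcard) hr)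
      refine ⟨H, hH, strat_of H n ρ k hne hk hρ hkn ?_ (or2_A H n ρ k hk hρ hkn ?_)⟩
      · intro S hS hks
        rcases S.eq_empty_or_nonempty with rfl | ⟨x, hx⟩
        · simp
        refine le_trans ?_ ((hd1 x (hS hx)).trans (card_le_card (subset_biUnion_of_mem _ hx)))
        have := Nat.mul_le_mul_left (186 * ρ) hks
        nlinarith
      · intro J hJ hkj
        rcases J.eq_empty_or_nonempty with rfl | ⟨y, hy⟩
        · simp
        refine le_trans ?_ ((hd2 y (hJ hy)).trans (card_le_card (subset_biUnion_of_mem _ hy)))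
        nlinarith

end Pool.Agent.H884Z.SR
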