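import Pool.Agent.H884Z.SR.Strat

set_option autoImplicit false
set_option linter.unusedSectionVars false

namespace Pool.Agent.H884Z.SR

open Finset

lemma exists_injOn_image {α β : Type} [DecidableEq α] [DecidableEq β] (C : Finset α) (Q : Finset β)
    (x0 : β) (h : C.card = Q.card) : ∃ ψ : α → β, Set.InjOn ψ C ∧ C.image ψ = Q := by
  let e := Finset.equivOfCardEq h
  refine ⟨fun a => if ha : a ∈ C then (e ⟨a, ha⟩ : β) else x0, ?_, ?_⟩
  · intro a ha b hb hab
    have ha' : a ∈ C := ha
    have hb' : b ∈ C := hb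
    simp only [dif_pos ha', dif_pos hb'] at hab
    have := e.injective (Subtype.ext hab)
    exact congrArg Subtype.val this
  · ext q
    simp only [mem_image]
    constructor
    · rintro ⟨a, ha, rfl⟩
      rw [dif_pos ha]; exact (e ⟨a, ha⟩).2
    · intro hq
      refine ⟨(e.symm ⟨q, hq⟩).1, (e.symm ⟨q, hq⟩).2, ?_⟩
      rw [dif_pos (e.symm ⟨q, hq⟩).2]
      simp

section TreeFacts

variable {V : Type} {T : SimpleGraph V}

lemma tree_parent (hT : T.IsTree) (v0 v : V) (hv : v ≠ v0) :
    ∃ p, T.Adj p v ∧ T.dist v0 p + 1 = T.dist v0 v := by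
  obtain ⟨w, hw⟩ := hT.connected.exists_walk_length_eq_dist v v0
  cases w with
  | nil => exact absurd rfl hv
  | @cons _ p _ h q =>
    refine ⟨p, h.symm, ?_⟩
    have h1 := SimpleGraph.dist_le q
    have h2 := hT.dist_eq_dist_add_one_of_adj v0 h
    rw [SimpleGraph.Walk.length_cons, SimpleGraph.dist_comm] at hw
    rw [SimpleGraph.dist_comm] at h1
    omega

lemma tree_parent_unique (hT : T.IsTree) (v0 : V) {a b w : V} (ha : T.Adj a w) (hb : T.Adj b w)
    (hda : T.dist v0 a + 1 = T.dist v0 w) (hdb : T.dist v0 b + 1 = T.dist v0 w) : a = b := by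
  obtain ⟨pa, hpa⟩ := hT.connected.exists_walk_length_eq_dist v0 a
  obtain ⟨pb, hpb⟩ := hT.connected.exists_walk_length_eq_dist v0 b
  have h1 : (pa.concat ha).IsPath :=
    SimpleGraph.Walk.isPath_of_length_eq_dist _ (by rw [SimpleGraph.Walk.length_concat]; omega)
  have h2 : (pb.concat hb).IsPath :=
    SimpleGraph.Walk.isPath_of_length_eq_dist _ (by rw [SimpleGraph.Walk.length_concat]; omega)
  have h3 : pa.concat ha = pb.concat hb :=
    (hT.existsUnique_path v0 w).unique h1 h2
  have h4 := congrArg SimpleGraph.Walk.penultimate h3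
  simpa using h4

end TreeFacts

theorem embed_tree {V X Y : Type} [Fintype V] [DecidableEq V] [Fintype X] [Fintype Y]
    [DecidableEq X] [DecidableEq Y] [Nonempty Y]
    (T : SimpleGraph V) [DecidableRel T.Adj] (hT : T.IsTree) (V1 V2 : Finset V)
    (hbip : ∀ a b, T.Adj a b → (a ∈ V1 ∧ b ∈ V2) ∨ (a ∈ V2 ∧ b ∈ V1))
    (hdis : Disjoint V1 V2) (hcov : ∀ v, v ∈ V1 ∨ v ∈ V2) (v0 : V) (hv0 : v0 ∈ V1)
    (n ρ k : ℕ) (hn1 : V1.card ≤ n) (hn2 : V2.card ≤ ρ * n)
    (hd1 : ∀ v ∈ V1, T.degree v ≤ k * ρ) (hd2 : ∀ v ∈ V2, T.degree v ≤ k)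
    (H : Finset (X × Y)) (hS : Strat H n ρ k) :
    ∃ (φ1 : V → X) (φ2 : V → Y), Set.InjOn φ1 V1 ∧ Set.InjOn φ2 V2 ∧
      ∀ a ∈ V1, ∀ b ∈ V2, T.Adj a b → (φ1 a, φ2 b) ∈ H := by
  obtain ⟨Inv, ⟨x0, hI0⟩, hstep⟩ := hS
  have hdis' : ∀ v, v ∈ V1 → v ∈ V2 → False := fun v h1 h2 => disjoint_left.1 hdis h1 h2
  let D : Finset V → Finset V := fun A => insert v0 (A.biUnion fun u => T.neighborFinset u)
  have hD : ∀ A w, w ∈ D A ↔ w = v0 ∨ ∃ u ∈ A, T.Adj u w := by
    intro A w; simp [D]
  have key : ∀ t ≤ V2.card, ∃ A ⊆ V2, A.card = t ∧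
      (∀ u ∈ A, ∀ u' ∈ V2, T.dist v0 u' < T.dist v0 u → u' ∈ A) ∧
      ∃ (φ1 : V → X) (φ2 : V → Y) (us : X → ℕ), Set.InjOn φ1 (D A) ∧ Set.InjOn φ2 A ∧
        (∀ u ∈ A, ∀ w, T.Adj u w → (φ1 w, φ2 u) ∈ H) ∧
        Inv ((D A).image φ1) (A.image φ2) us ∧
        (∀ w ∈ D A, us (φ1 w) ≤ (A.filter fun u => T.Adj w u).card) ∧
        (∀ x, x ∉ (D A).image φ1 → us x = 0) := by
    intro t
    induction t with
    | zero =>
      intro _
      refine ⟨∅, empty_subset _, rfl, by simp, fun _ => x0, fun _ => Classical.arbitrary Y,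
        fun _ => 0, ?_, by simp, by simp, ?_, by simp, by simp⟩
      · intro a ha b hb _
        have ha' := (hD ∅ a).1 ha
        have hb' := (hD ∅ b).1 hb
        simp at ha' hb'
        rw [ha', hb']
      · simpa [D] using hI0
    | succ t ih =>
      intro ht
      obtain ⟨A, hAV, hAc, hAcl, φ1, φ2, us, hi1, hi2, hedge, hInv, hus, hus0⟩ := ih (by omega)
      have hne : (V2 \ A).Nonempty := by
        rw [← card_pos, card_sdiff_of_subset hAV]; omega
      obtain ⟨u, hu, humin⟩ := exists_min_image (V2 \ A) (fun u => T.dist v0 u) hne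
      obtain ⟨huV, huA⟩ := mem_sdiff.1 hu
      have hlow : ∀ u' ∈ V2, T.dist v0 u' < T.dist v0 u → u' ∈ A := by
        intro u' h1 h2
        by_contra h3
        have := humin u' (mem_sdiff.2 ⟨h1, h3⟩)
        omega
      have hu0 : u ≠ v0 := by rintro rfl; exact hdis' _ hv0 huV
      obtain ⟨p, hpu, hdp⟩ := tree_parent hT v0 u hu0
      have hnb1 : ∀ u' ∈ V2, ∀ w, T.Adj u' w → w ∈ V1 := by
        intro u' h1 w h2
        rcases hbip _ _ h2 with h | h
        · exact (hdis' _ h.1 h1).elim
        · exact h.2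
      have hDV : D A ⊆ V1 := by
        intro w hw
        rcases (hD A w).1 hw with rfl | ⟨u', h1, h2⟩
        · exact hv0
        · exact hnb1 u' (hAV h1) w h2
      have hpV : p ∈ V1 := hnb1 u huV p hpu.symm
      have hpD : p ∈ D A := by
        by_cases hp0 : p = v0
        · exact (hD A p).2 (Or.inl hp0)
        · obtain ⟨g, hgp, hdg⟩ := tree_parent hT v0 p hp0
          have hgV : g ∈ V2 := by
            rcases hbip _ _ hgp with h | h
            · exact (hdis' _ hpV h.2).elim
            · exact h.1
          exact (hD A p).2 (Or.inr ⟨g, hlow g hgV (by omega), hgp⟩)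
      set C := (T.neighborFinset u).erase p with hC
      have hCm : ∀ w, w ∈ C ↔ w ≠ p ∧ T.Adj u w := by intro w; simp [hC]
      have hCD : ∀ w ∈ C, w ∉ D A := by
        intro w hw hwD
        obtain ⟨hwp, huw⟩ := (hCm w).1 hw
        have hdw : T.dist v0 w = T.dist v0 u + 1 := by
          rcases hT.dist_eq_dist_add_one_of_adj v0 huw with h | h
          · exact absurd (tree_parent_unique hT v0 huw.symm hpu h.symm hdp) hwp
          · exact h
        rcases (hD A w).1 hwD with rfl | ⟨u', h1, h2⟩
        · simp at hdw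
        · have h3 : T.dist v0 u' ≤ T.dist v0 u := by
            by_contra h4
            exact huA (hAcl u' h1 u huV (by omega))
          rcases hT.dist_eq_dist_add_one_of_adj v0 h2 with h | h
          · omega
          · have := tree_parent_unique hT v0 h2 huw h.symm hdw.symm
            exact huA (this ▸ h1)
      have hCdis : Disjoint (D A) C := disjoint_right.2 hCD
      have hCV : C ⊆ V1 := fun w hw => hnb1 u huV w ((hCm w).1 hw).2
      have hck : C.card ≤ k := by
        have := hd2 u huV
        rw [← SimpleGraph.card_neighborFinset_eq_degree] at this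
        exact (card_le_card (erase_subset _ _)).trans this
      have hU1 : ((D A).image φ1).card + C.card ≤ n := by
        have h1 := card_image_le (s := D A) (f := φ1)
        have h2 := card_union_of_disjoint hCdis
        have h3 := card_le_card (union_subset hDV hCV)
        omega
      have hU2 : (A.image φ2).card < ρ * n := by
        have h1 := card_image_le (s := A) (f := φ2)
        omega
      have husp : us (φ1 p) < k * ρ := by
        have h1 := hus p hpD
        have h2 := hd1 p hpV
        rw [← SimpleGraph.card_neighborFinset_eq_degree] at h2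
        have h3 : insert u (A.filter fun u => T.Adj p u) ⊆ T.neighborFinset p := by
          intro w hw
          rcases mem_insert.1 hw with rfl | hw
          · simpa using hpu
          · simpa using (mem_filter.1 hw).2
        have h4 := card_le_card h3
        rw [card_insert_of_notMem (fun h => huA (mem_filter.1 h).1)] at h4
        omega
      obtain ⟨y, hyU, hxy, Q, hQU, hQc, hQH, hInv'⟩ := hstep _ _ us (φ1 p) C.card hInv
        (mem_image_of_mem _ hpD) husp hck hU1 hU2
      obtain ⟨ψ, hψi, hψQ⟩ := exists_injOn_image C Q x0 hQc.symm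
      have hψm : ∀ w ∈ C, ψ w ∈ Q := fun w hw => hψQ ▸ mem_image_of_mem _ hw
      let φ1' : V → X := fun w => if w ∈ C then ψ w else φ1 w
      let φ2' : V → Y := Function.update φ2 u y
      have e1 : ∀ w ∈ D A, φ1' w = φ1 w := fun w hw => if_neg fun h => hCD w h hw
      have e2 : ∀ w ∈ C, φ1' w = ψ w := fun w hw => if_pos hw
      have e3 : ∀ w ∈ A, φ2' w = φ2 w := fun w hw =>
        Function.update_of_ne (by rintro rfl; exact huA hw) _ _
      have e4 : φ2' u = y := Function.update_self _ _ _
      have eD : D (insert u A) = D A ∪ C := by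
        ext w
        rw [mem_union, hD, hD, hCm]
        constructor
        · rintro (h | ⟨u', h1, h2⟩)
          · exact Or.inl (Or.inl h)
          · rcases mem_insert.1 h1 with rfl | h1
            · by_cases hwp : w = p
              · subst hwp; exact Or.inl ((hD A w).1 hpD)
              · exact Or.inr ⟨hwp, h2⟩
            · exact Or.inl (Or.inr ⟨u', h1, h2⟩)
        · rintro ((h | ⟨u', h1, h2⟩) | ⟨h1, h2⟩)
          · exact Or.inl h
          · exact Or.inr ⟨u', mem_insert_of_mem h1, h2⟩
          · exact Or.inr ⟨u, mem_insert_self _ _, h2⟩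
      have eI1 : (D (insert u A)).image φ1' = (D A).image φ1 ∪ Q := by
        rw [eD, image_union, ← hψQ]
        congr 1
        · exact image_congr fun w hw => e1 w hw
        · exact image_congr fun w hw => e2 w hw
      have eI2 : (insert u A).image φ2' = insert y (A.image φ2) := by
        rw [image_insert, e4]
        congr 1
        exact image_congr fun w hw => e3 w hw
      have hQn : ∀ w ∈ C, ψ w ∉ (D A).image φ1 := fun w hw => disjoint_left.1 hQU (hψm w hw)
      refine ⟨insert u A, insert_subset huV hAV, by rw [card_insert_of_notMem huA, hAc], ?_,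
        φ1', φ2', Function.update us (φ1 p) (us (φ1 p) + 1), ?_, ?_, ?_, ?_, ?_, ?_⟩
      · intro u1 h1 u2 h2 h3
        rcases mem_insert.1 h1 with rfl | h1
        · exact mem_insert_of_mem (hlow u2 h2 h3)
        · exact mem_insert_of_mem (hAcl u1 h1 u2 h2 h3)
      · rw [eD]
        intro a ha b hb hab
        rcases mem_union.1 ha with ha | ha <;> rcases mem_union.1 hb with hb | hb
        · rw [e1 a ha, e1 b hb] at hab; exact hi1 ha hb hab
        · rw [e1 a ha, e2 b hb] at hab
          exact (hQn b hb (hab ▸ mem_image_of_mem _ ha)).elim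
        · rw [e2 a ha, e1 b hb] at hab
          exact (hQn a ha (hab ▸ mem_image_of_mem _ hb)).elim
        · rw [e2 a ha, e2 b hb] at hab; exact hψi ha hb hab
      · intro a ha0 b hb0 hab
        rcases mem_insert.1 ha0 with ha | ha <;> rcases mem_insert.1 hb0 with hb | hb
        · rw [ha, hb]
        · rw [ha, e4, e3 b hb] at hab
          exact (hyU (hab ▸ mem_image_of_mem _ hb)).elim
        · rw [hb, e4, e3 a ha] at hab
          exact (hyU (hab ▸ mem_image_of_mem _ ha)).elim
        · rw [e3 a ha, e3 b hb] at hab; exact hi2 ha hb hab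
      · intro u1 h1 w hw
        rcases mem_insert.1 h1 with rfl | h1
        · rw [e4]
          by_cases hwp : w = p
          · subst hwp; rw [e1 w hpD]; exact hxy
          · have hwC := (hCm w).2 ⟨hwp, hw⟩
            rw [e2 w hwC]; exact hQH _ (hψm w hwC)
        · rw [e3 u1 h1, e1 w ((hD A w).2 (Or.inr ⟨u1, h1, hw⟩))]
          exact hedge u1 h1 w hw
      · rw [eI1, eI2]; exact hInv'
      · rw [eD]
        intro w hw
        rcases mem_union.1 hw with hw | hw
        · rw [e1 w hw]
          have h1 := hus w hw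
          by_cases hwp : w = p
          · subst hwp
            rw [Function.update_self, filter_insert, if_pos hpu,
              card_insert_of_notMem (fun h => huA (mem_filter.1 h).1)]
            omega
          · rw [Function.update_of_ne (fun h => hwp (hi1 hw hpD h))]
            exact h1.trans (card_le_card (filter_subset_filter _ (subset_insert _ _)))
        · rw [e2 w hw, Function.update_of_ne
            (fun h : ψ w = φ1 p => hQn w hw (h ▸ mem_image_of_mem _ hpD)), hus0 _ (hQn w hw)]
          exact Nat.zero_le _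
      · rw [eI1]
        intro x hx
        have hx1 : x ∉ (D A).image φ1 := fun h => hx (mem_union_left _ h)
        rw [Function.update_of_ne (fun h : x = φ1 p => hx1 (h ▸ mem_image_of_mem _ hpD)),
          hus0 _ hx1]
  obtain ⟨A, hAV, hAc, -, φ1, φ2, us, hi1, hi2, hedge, -⟩ := key V2.card le_rfl
  have hA : A = V2 := eq_of_subset_of_card_le hAV hAc.ge
  subst hA
  refine ⟨φ1, φ2, hi1.mono ?_, hi2, fun a _ b hb hab => hedge b hb a hab.symm⟩
  intro w hw
  by_cases hw0 : w = v0
  · exact (hD A w).2 (Or.inl hw0)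
  · obtain ⟨g, hg, -⟩ := tree_parent hT v0 w hw0
    rcases hbip _ _ hg with h | h
    · exact (hdis' _ hw h.2).elim
    · exact (hD A w).2 (Or.inr ⟨g, h.1, hg⟩)

end Pool.Agent.H884Z.SR
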