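import Pool.Agent.H884Z.SR.Defs
import Pool.Agent.H884Z.SR.Host
import Pool.Agent.H884Z.SR.Tree

set_option autoImplicit false
set_option linter.unusedSectionVars false

namespace Pool.Agent.H884Z.SR

open Finset

theorem main_aux {V : Type} [Fintype V] [DecidableEq V] (T : SimpleGraph V) [DecidableRel T.Adj]
    (hT : T.IsTree) (V1 V2 : Finset V)
    (hbip : ∀ a b, T.Adj a b → (a ∈ V1 ∧ b ∈ V2) ∨ (a ∈ V2 ∧ b ∈ V1))
    (hdis : Disjoint V1 V2) (hcov : ∀ v, v ∈ V1 ∨ v ∈ V2) (v0 : V) (hv0 : v0 ∈ V1)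
    (r L n ρ k : ℕ) (hr : 1 ≤ r) (hL : 1 ≤ L) (hrL : r ≤ 2 ^ L)
    (hρ : 1 ≤ ρ) (hk : 1 ≤ k) (hkn : k ≤ n) (hn1 : V1.card ≤ n) (hn2 : V2.card ≤ ρ * n)
    (hd1 : ∀ v ∈ V1, T.degree v ≤ k * ρ) (hd2 : ∀ v ∈ V2, T.degree v ≤ k) :
    ∃ (N : ℕ) (G : SimpleGraph (Fin N)), Arrows G r T ∧
      G.edgeSet.ncard ≤ 720896000 * (r ^ 2 * L * (k * ρ * n)) := by
  classical
  obtain ⟨d, q, M, E, hE, hM, hhost⟩ := host r L n ρ k hr hL hrL hρ hk hkn
  have : Nonempty (Fin M) := ⟨⟨0, hM⟩⟩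
  let e := Fintype.equivFin ((Fin d × Fin q) ⊕ Fin M)
  let ed : (Fin d × Fin q) × Fin M → Sym2 (Fin (Fintype.card ((Fin d × Fin q) ⊕ Fin M))) :=
    fun p => s(e (Sum.inl p.1), e (Sum.inr p.2))
  let G := SimpleGraph.fromEdgeSet (↑(E.image ed) : Set (Sym2 (Fin (Fintype.card ((Fin d × Fin q) ⊕ Fin M)))))
  have hG : ∀ p ∈ E, ed p ∈ G.edgeSet := by
    intro p hp
    simp only [G, SimpleGraph.edgeSet_fromEdgeSet, Set.mem_sdiff, coe_image, Set.mem_image,
      mem_coe]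
    refine ⟨⟨p, hp, rfl⟩, ?_⟩
    simp [ed]
  refine ⟨_, G, fun c => ?_, ?_⟩
  · let c' : (Fin d × Fin q) × Fin M → Fin r := fun p =>
      if h : ed p ∈ G.edgeSet then c ⟨ed p, h⟩ else ⟨0, hr⟩
    obtain ⟨i, -, hi⟩ := exists_max_image (univ : Finset (Fin r))
      (fun i => (E.filter fun p => c' p = i).card) ⟨⟨0, hr⟩, mem_univ _⟩
    have hcard : E.card ≤ r * (E.filter fun p => c' p = i).card := by
      rw [card_eq_sum_card_fiberwise (f := c') (t := univ) (fun _ _ => mem_univ _)]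
      have := sum_le_card_nsmul univ _ _ hi
      simpa using this
    obtain ⟨H, hH, hS⟩ := hhost _ (filter_subset _ _) hcard
    obtain ⟨φ1, φ2, hi1, hi2, hedge⟩ := embed_tree T hT V1 V2 hbip hdis hcov v0 hv0 n ρ k hn1 hn2
      hd1 hd2 H hS
    have hnot : ∀ v ∈ V2, v ∉ V1 := fun v h2 h1 => disjoint_left.1 hdis h1 h2
    let f : V → Fin (Fintype.card ((Fin d × Fin q) ⊕ Fin M)) := fun v =>
      if v ∈ V1 then e (Sum.inl (φ1 v)) else e (Sum.inr (φ2 v))
    have key : ∀ a ∈ V1, ∀ b ∈ V2, T.Adj a b →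
        ∃ h : s(f a, f b) ∈ G.edgeSet, c ⟨s(f a, f b), h⟩ = i := by
      intro a ha b hb hab
      have h1 := mem_filter.1 (hH (hedge a ha b hb hab))
      have h2 : s(f a, f b) = ed (φ1 a, φ2 b) := by
        simp only [f, ed, if_pos ha, if_neg (hnot b hb)]
      have h3 := hG _ h1.1
      have h4 := h1.2
      simp only [c', dif_pos h3] at h4
      refine ⟨h2 ▸ h3, ?_⟩
      rw [← h4]; congr 2
    refine ⟨i, f, ?_, ?_⟩
    · intro a b hab
      simp only [f] at hab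
      split_ifs at hab with ha hb hb
      · exact hi1 ha hb (Sum.inl.inj (e.injective hab))
      · exact absurd (e.injective hab) (by simp)
      · exact absurd (e.injective hab) (by simp)
      · exact hi2 ((hcov a).resolve_left ha) ((hcov b).resolve_left hb)
          (Sum.inr.inj (e.injective hab))
    · intro a b hab
      rcases hbip a b hab with h | h
      · exact key a h.1 b h.2 hab
      · have := key b h.2 a h.1 hab.symm
        simpa only [Sym2.eq_swap (a := f a)] using this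
  · refine le_trans ?_ hE
    have : G.edgeSet ⊆ ↑(E.image ed) := by
      simp only [G, SimpleGraph.edgeSet_fromEdgeSet]
      exact Set.sdiff_subset
    refine (Set.ncard_le_ncard this (finite_toSet _)).trans ?_
    rw [Set.ncard_coe_finset]
    exact card_image_le

theorem main_le {V : Type} [Fintype V] [Nontrivial V] (T : SimpleGraph V)
    (hT : T.IsTree) (V1 V2 : Finset V)
    (hbip : ∀ a b, T.Adj a b → (a ∈ V1 ∧ b ∈ V2) ∨ (a ∈ V2 ∧ b ∈ V1))
    (hdis : Disjoint V1 V2) (hcov : ∀ v, v ∈ V1 ∨ v ∈ V2) (hle : V1.card ≤ V2.card)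
    (r L : ℕ) (hr : 1 ≤ r) (hL : 1 ≤ L) (hrL : r ≤ 2 ^ L) :
    ∃ (N : ℕ) (G : SimpleGraph (Fin N)), Arrows G r T ∧
      G.edgeSet.ncard ≤ 1441792000 * (r ^ 2 * L * beta T V1 V2) := by
  classical
  have hdeg : ∀ v, (T.neighborSet v).ncard = T.degree v := by
    intro v
    rw [← SimpleGraph.card_neighborFinset_eq_degree, ← Set.ncard_coe_finset]
    simp
  obtain ⟨a, b, ha, hb, hab⟩ : ∃ a b, a ∈ V1 ∧ b ∈ V2 ∧ T.Adj a b := by
    obtain ⟨u, v, huv⟩ := exists_pair_ne V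
    obtain ⟨p, hp, -⟩ := tree_parent hT u v huv.symm
    rcases hbip _ _ hp with h | h
    · exact ⟨p, v, h.1, h.2, hp⟩
    · exact ⟨v, p, h.2, h.1, hp.symm⟩
  have hnot : ∀ v ∈ V2, v ∉ V1 := fun v h2 h1 => disjoint_left.1 hdis h1 h2
  set n := V1.card with hn
  set m := V2.card with hm
  set D1 := maxDeg T V1 with hD1
  set D2 := maxDeg T V2 with hD2
  have hn0 : 0 < n := card_pos.2 ⟨a, ha⟩
  have h1 : ∀ v ∈ V1, T.degree v ≤ D1 := fun v hv => by
    rw [← hdeg]; exact le_sup (f := fun v => (T.neighborSet v).ncard) hv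
  have h2 : ∀ v ∈ V2, T.degree v ≤ D2 := fun v hv => by
    rw [← hdeg]; exact le_sup (f := fun v => (T.neighborSet v).ncard) hv
  have h3 : D1 ≤ m := by
    refine Finset.sup_le fun v hv => ?_
    rw [hdeg, ← SimpleGraph.card_neighborFinset_eq_degree]
    refine card_le_card fun w hw => ?_
    rcases hbip v w (by simpa using hw) with h | h
    · exact h.2
    · exact (hnot _ h.1 hv).elim
  have h4 : D2 ≤ n := by
    refine Finset.sup_le fun v hv => ?_
    rw [hdeg, ← SimpleGraph.card_neighborFinset_eq_degree]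
    refine card_le_card fun w hw => ?_
    rcases hbip v w (by simpa using hw) with h | h
    · exact (hnot _ hv h.1).elim
    · exact h.2
  have h5 : 1 ≤ D2 := by
    refine le_trans ?_ (h2 b hb)
    rw [← SimpleGraph.card_neighborFinset_eq_degree]
    exact card_pos.2 ⟨a, by simpa using hab.symm⟩
  set ρ := m / n + 1 with hρ
  have hρ0 : 0 < ρ := Nat.succ_pos _
  have r1 : m < n * ρ := Nat.lt_mul_div_succ _ hn0
  have r2 : n * ρ ≤ 2 * m := by
    have : n * (m / n) ≤ m := Nat.mul_div_le _ _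
    rw [hρ, mul_add]; omega
  set k1 := D1 / ρ + 1 with hk1
  have k2 : D1 < ρ * k1 := Nat.lt_mul_div_succ _ hρ0
  have k3 : ρ * k1 ≤ D1 + ρ := by
    have : ρ * (D1 / ρ) ≤ D1 := Nat.mul_div_le _ _
    rw [hk1, mul_add]; omega
  have k4 : k1 ≤ n := by
    have : D1 / ρ < n := by
      rw [Nat.div_lt_iff_lt_mul hρ0]; omega
    omega
  obtain ⟨N, G, hG1, hG2⟩ := main_aux T hT V1 V2 hbip hdis hcov a ha r L n ρ (max k1 D2) hr hL hrL
    hρ0 (h5.trans (le_max_right _ _)) (max_le k4 h4) le_rfl (by rw [mul_comm]; exact r1.le)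
    (fun v hv => (h1 v hv).trans (k2.le.trans (by
      rw [mul_comm]; exact Nat.mul_le_mul_right _ (le_max_left _ _))))
    (fun v hv => (h2 v hv).trans (le_max_right _ _))
  refine ⟨N, G, hG1, hG2.trans ?_⟩
  have hb : max k1 D2 * ρ * n ≤ 2 * beta T V1 V2 := by
    unfold beta
    rw [← hn, ← hm, ← hD1, ← hD2]
    have e1 : m ≤ m * D2 := Nat.le_mul_of_pos_right _ h5
    rcases le_total k1 D2 with h | h
    · rw [max_eq_right h]
      have := Nat.mul_le_mul_left D2 r2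
      nlinarith
    · rw [max_eq_left h]
      have := Nat.mul_le_mul_left n k3
      nlinarith
  calc 720896000 * (r ^ 2 * L * (max k1 D2 * ρ * n)) ≤
      720896000 * (r ^ 2 * L * (2 * beta T V1 V2)) := by gcongr
    _ = _ := by ring

theorem main : ∃ C : ℝ, ∀ r : ℕ, 2 ≤ r → ∀ (V : Type) [Fintype V] [Nontrivial V]
    (T : SimpleGraph V), T.IsTree → ∀ V₁ V₂ : Finset V, T.IsBipartiteWith V₁ V₂ →
      (∀ v, v ∈ V₁ ∨ v ∈ V₂) →
      ∃ (N : ℕ) (G : SimpleGraph (Fin N)), Arrows G r T ∧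
        (G.edgeSet.ncard : ℝ) ≤ C * (r : ℝ) ^ 2 * Real.log r * beta T V₁ V₂ := by
  refine ⟨1441792000 * 3, fun r hr V _ _ T hT V1 V2 hb hcov => ?_⟩
  have hbip : ∀ a b, T.Adj a b → (a ∈ V1 ∧ b ∈ V2) ∨ (a ∈ V2 ∧ b ∈ V1) :=
    fun a b h => hb.mem_of_adj h
  have hdis : Disjoint V1 V2 := disjoint_coe.1 hb.disjoint
  set L := Nat.log 2 r + 1 with hL
  have hrL : r ≤ 2 ^ L := (Nat.lt_pow_succ_log_self (by norm_num) r).le
  have hlog : (L : ℝ) ≤ 3 * Real.log r := by
    have h1 : 2 ^ Nat.log 2 r ≤ r := Nat.pow_log_le_self 2 (by omega)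
    have h2 : (2 : ℝ) ^ Nat.log 2 r ≤ r := by exact_mod_cast h1
    have h3 := Real.log_le_log (by positivity) h2
    rw [Real.log_pow] at h3
    have h4 : Real.log 2 ≤ Real.log r := Real.log_le_log (by norm_num) (by exact_mod_cast hr)
    have h5 := Real.log_two_gt_d9
    have h6 : (0 : ℝ) ≤ Nat.log 2 r := Nat.cast_nonneg _
    rw [hL]; push_cast
    nlinarith
  have key : ∃ (N : ℕ) (G : SimpleGraph (Fin N)), Arrows G r T ∧
      G.edgeSet.ncard ≤ 1441792000 * (r ^ 2 * L * beta T V1 V2) := by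
    rcases le_total V1.card V2.card with h | h
    · exact main_le T hT V1 V2 hbip hdis hcov h r L (by omega) (by omega) hrL
    · have := main_le T hT V2 V1 (fun a b h => (hbip a b h).symm) hdis.symm
        (fun v => (hcov v).symm) h r L (by omega) (by omega) hrL
      have e : beta T V2 V1 = beta T V1 V2 := by unfold beta; ring
      rwa [e] at this
  obtain ⟨N, G, h1, h2⟩ := key
  refine ⟨N, G, h1, ?_⟩
  have h3 : (G.edgeSet.ncard : ℝ) ≤ 1441792000 * ((r : ℝ) ^ 2 * L * beta T V1 V2) := by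
    exact_mod_cast h2
  calc _ ≤ _ := h3
    _ ≤ 1441792000 * ((r : ℝ) ^ 2 * (3 * Real.log r) * beta T V1 V2) := by gcongr
    _ = _ := by ring

end Pool.Agent.H884Z.SR
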