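import Mathlib

set_option autoImplicit false
set_option linter.unusedSectionVars false

namespace Pool.Agent.H884Z.SR

open Finset

section Pot

variable {O R : Type} [DecidableEq O] [DecidableEq R]

/-- potential of a pair (agents, cut) given the used set `U` -/
def Phi (h : O → Finset R → ℤ) (U : Finset R) (P : Finset O) (W : Finset R) : ℤ :=
  ((W \ U).card : ℤ) - ∑ o ∈ P, h o (W ∪ U)

/-- monotone supermodular set function -/
def MS (g : Finset R → ℤ) : Prop :=
  (∀ Z Z', Z ⊆ Z' → g Z ≤ g Z') ∧ (∀ Z Z', g Z + g Z' ≤ g (Z ∪ Z') + g (Z ∩ Z'))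

/-- deficiency -/
def df (c : ℕ) (N Z : Finset R) : ℤ := max ((c : ℤ) - ((N \ Z).card : ℤ)) 0

lemma card_sdiff_modular (N Z Z' : Finset R) :
    (N \ Z).card + (N \ Z').card = (N \ (Z ∪ Z')).card + (N \ (Z ∩ Z')).card := by
  have h1 : N \ (Z ∪ Z') = (N \ Z) ∩ (N \ Z') := by ext x; simp; tauto
  have h2 : N \ (Z ∩ Z') = (N \ Z) ∪ (N \ Z') := by ext x; simp; tauto
  rw [h1, h2]
  have := card_union_add_card_inter (N \ Z) (N \ Z')
  omega

lemma card_sdiff_anti (N : Finset R) {Z Z' : Finset R} (h : Z ⊆ Z') :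
    (N \ Z').card ≤ (N \ Z).card :=
  card_le_card (sdiff_subset_sdiff (subset_refl _) h)

lemma MS_df (c : ℕ) (N : Finset R) : MS (df c N) := by
  refine ⟨fun Z Z' h => ?_, fun Z Z' => ?_⟩
  · have := card_sdiff_anti N h
    unfold df; omega
  · have h1 := card_sdiff_modular N Z Z'
    have h2 := card_sdiff_anti N (subset_union_left (s₁ := Z) (s₂ := Z'))
    have h3 := card_sdiff_anti N (subset_union_right (s₁ := Z) (s₂ := Z'))
    have h4 := card_sdiff_anti N (inter_subset_left (s₁ := Z) (s₂ := Z'))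
    have h5 := card_sdiff_anti N (inter_subset_right (s₁ := Z) (s₂ := Z'))
    unfold df; omega

lemma MS.add_const {g : Finset R → ℤ} (hg : MS g) (c : ℤ) : MS (fun Z => g Z + c) := by
  refine ⟨fun Z Z' h => ?_, fun Z Z' => ?_⟩
  · have := hg.1 Z Z' h; simpa using this
  · have := hg.2 Z Z'; simp only; linarith

lemma MS_sum {ι : Type} (s : Finset ι) (g : ι → Finset R → ℤ) (hg : ∀ i, MS (g i)) :
    MS (fun Z => ∑ i ∈ s, g i Z) := by
  refine ⟨fun Z Z' h => sum_le_sum fun i _ => (hg i).1 Z Z' h, fun Z Z' => ?_⟩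
  simp only [← sum_add_distrib]
  exact sum_le_sum fun i _ => (hg i).2 Z Z'

lemma df_nonneg (c : ℕ) (N Z : Finset R) : 0 ≤ df c N Z := le_max_right _ _

lemma df_le (c : ℕ) (N Z : Finset R) : df c N Z ≤ c := by
  unfold df; omega

lemma Phi_submod (h : O → Finset R → ℤ) (hh : ∀ o, MS (h o)) (U : Finset R) (P P' : Finset O)
    (W W' : Finset R) :
    Phi h U (P ∪ P') (W ∪ W') + Phi h U (P ∩ P') (W ∩ W') ≤ Phi h U P W + Phi h U P' W' := by
  unfold Phi
  have e1 : (W ∪ W') ∪ U = (W ∪ U) ∪ (W' ∪ U) := by ext x; simp; tauto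
  have e2 : (W ∩ W') ∪ U = (W ∪ U) ∩ (W' ∪ U) := by ext x; simp; tauto
  have c1 : ((W ∪ W') \ U).card + ((W ∩ W') \ U).card = (W \ U).card + (W' \ U).card := by
    have h1 : (W ∪ W') \ U = (W \ U) ∪ (W' \ U) := by ext x; simp; tauto
    have h2 : (W ∩ W') \ U = (W \ U) ∩ (W' \ U) := by ext x; simp; tauto
    rw [h1, h2]; exact card_union_add_card_inter _ _
  rw [e1, e2]
  set Z := W ∪ U
  set Z' := W' ∪ U
  have s1 : ∑ o ∈ P, h o Z = ∑ o ∈ P \ P', h o Z + ∑ o ∈ P ∩ P', h o Z := by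
    rw [← sum_union (disjoint_sdiff_inter P P'), sdiff_union_inter]
  have s2 : ∑ o ∈ P', h o Z' = ∑ o ∈ P' \ P, h o Z' + ∑ o ∈ P ∩ P', h o Z' := by
    rw [inter_comm, ← sum_union (disjoint_sdiff_inter P' P), sdiff_union_inter]
  have s3 : ∑ o ∈ P ∪ P', h o (Z ∪ Z') = ∑ o ∈ P \ P', h o (Z ∪ Z') +
      (∑ o ∈ P' \ P, h o (Z ∪ Z') + ∑ o ∈ P ∩ P', h o (Z ∪ Z')) := by
    rw [inter_comm, ← sum_union (disjoint_sdiff_inter P' P), sdiff_union_inter,
      ← sum_union (sdiff_disjoint), sdiff_union_self_eq_union]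
  have t1 : ∑ o ∈ P \ P', h o Z ≤ ∑ o ∈ P \ P', h o (Z ∪ Z') :=
    sum_le_sum fun o _ => (hh o).1 _ _ subset_union_left
  have t2 : ∑ o ∈ P' \ P, h o Z' ≤ ∑ o ∈ P' \ P, h o (Z ∪ Z') :=
    sum_le_sum fun o _ => (hh o).1 _ _ subset_union_right
  have t3 : ∑ o ∈ P ∩ P', h o Z + ∑ o ∈ P ∩ P', h o Z' ≤
      ∑ o ∈ P ∩ P', h o (Z ∪ Z') + ∑ o ∈ P ∩ P', h o (Z ∩ Z') := by
    simp only [← sum_add_distrib]
    exact sum_le_sum fun o _ => (hh o).2 _ _
  have c1' : (((W ∪ W') \ U).card : ℤ) + ((W ∩ W') \ U).card = (W \ U).card + (W' \ U).card := by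
    exact_mod_cast c1
  linarith

lemma Phi_insert_used (h : O → Finset R → ℤ) (U : Finset R) (P : Finset O) (W : Finset R)
    {w : R} (hw : w ∉ U) : Phi h (insert w U) P W = Phi h U P (insert w W) - 1 := by
  unfold Phi
  have e1 : W ∪ insert w U = insert w W ∪ U := by ext x; simp
  have e2 : insert w W \ U = insert w (W \ insert w U) := by
    ext x; simp only [mem_sdiff, mem_insert]
    constructor
    · rintro ⟨h1 | h1, h2⟩
      · exact Or.inl h1
      · by_cases hx : x = w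
        · exact Or.inl hx
        · exact Or.inr ⟨h1, by tauto⟩
    · rintro (h1 | ⟨h1, h2⟩)
      · subst h1; exact ⟨Or.inl rfl, hw⟩
      · exact ⟨Or.inr h1, by tauto⟩
  rw [e1, e2, card_insert_of_notMem (by simp)]
  push_cast; ring

lemma Phi_insert_agent (h : O → Finset R → ℤ) (U : Finset R) (P : Finset O) (W : Finset R)
    {x : O} (hx : x ∉ P) : Phi h U (insert x P) W = Phi h U P W - h x (W ∪ U) := by
  unfold Phi
  rw [sum_insert hx]; ring

lemma Phi_empty (h : O → Finset R → ℤ) (U : Finset R) : Phi h U ∅ ∅ = 0 := by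
  simp [Phi]

/-- uncrossing -/
lemma uncross {ι : Type} [DecidableEq ι] (h : O → Finset R → ℤ) (hh : ∀ o, MS (h o))
    (U : Finset R) (A : Finset O) (a m : ℕ)
    (inv : ∀ P ⊆ A, ∀ W : Finset R, a * P.card + W.card ≤ 2 * m → 0 ≤ Phi h U P W)
    (B : Finset ι) (g : ι → ℤ) (hg : ∀ i ∈ B, 0 ≤ g i)
    (big : ∀ P ⊆ A, ∀ W : Finset R, m < a * P.card + W.card → a * P.card + W.card ≤ 2 * m →
      ∑ i ∈ B, g i < Phi h U P W)
    (Pi : ι → Finset O) (Wi : ι → Finset R)
    (hi : ∀ i ∈ B, Pi i ⊆ A ∧ a * (Pi i).card + (Wi i).card ≤ 2 * m ∧ Phi h U (Pi i) (Wi i) ≤ g i) :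
    ∃ P ⊆ A, ∃ W : Finset R, a * P.card + W.card ≤ m ∧ (∀ i ∈ B, Wi i ⊆ W) ∧
      Phi h U P W ≤ ∑ i ∈ B, g i := by
  have key : ∀ B' ⊆ B, ∃ P ⊆ A, ∃ W : Finset R, a * P.card + W.card ≤ m ∧ (∀ i ∈ B', Wi i ⊆ W) ∧
      Phi h U P W ≤ ∑ i ∈ B', g i := by
    intro B'
    induction B' using Finset.induction_on with
    | empty =>
      intro _
      exact ⟨∅, empty_subset _, ∅, by simp, by simp, by simp [Phi_empty]⟩
    | insert i B' hiB ih =>
      intro hsub
      obtain ⟨P, hPA, W, hsz, hW, hPhi⟩ := ih ((subset_insert _ _).trans hsub)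
      have hiB0 : i ∈ B := hsub (mem_insert_self _ _)
      obtain ⟨h1, h2, h3⟩ := hi i hiB0
      have hle : ∑ j ∈ insert i B', g j ≤ ∑ j ∈ B, g j :=
        sum_le_sum_of_subset_of_nonneg hsub fun j hj _ => hg j hj
      have hgi : g i ≤ ∑ j ∈ B, g j := single_le_sum hg hiB0
      have h2' : a * (Pi i).card + (Wi i).card ≤ m := by
        by_contra hc
        have := big _ h1 _ (by omega) h2
        linarith
      have hu1 : a * (P ∪ Pi i).card ≤ a * P.card + a * (Pi i).card := by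
        rw [← mul_add]; exact Nat.mul_le_mul_left _ (card_union_le _ _)
      have hu2 : (W ∪ Wi i).card ≤ W.card + (Wi i).card := card_union_le _ _
      have hi1 : a * (P ∩ Pi i).card ≤ a * P.card :=
        Nat.mul_le_mul_left _ (card_le_card inter_subset_left)
      have hi2 : (W ∩ Wi i).card ≤ W.card := card_le_card inter_subset_left
      have hsub' := Phi_submod h hh U P (Pi i) W (Wi i)
      have hint := inv (P ∩ Pi i) (inter_subset_left.trans hPA) (W ∩ Wi i) (by omega)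
      have hfin : Phi h U (P ∪ Pi i) (W ∪ Wi i) ≤ ∑ j ∈ insert i B', g j := by
        rw [sum_insert hiB]; linarith
      refine ⟨P ∪ Pi i, union_subset hPA h1, W ∪ Wi i, ?_, ?_, hfin⟩
      · by_contra hc
        have := big _ (union_subset hPA h1) (W ∪ Wi i) (by omega) (by omega)
        linarith
      · intro j hj
        rcases mem_insert.1 hj with rfl | hj
        · exact subset_union_right
        · exact (hW j hj).trans subset_union_left
  exact key B (subset_refl _)

/-- a critical pair containing every critical cut element of the finite set `T` -/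
lemma crit (h : O → Finset R → ℤ) (hh : ∀ o, MS (h o))
    (U : Finset R) (A : Finset O) (a m : ℕ)
    (inv : ∀ P ⊆ A, ∀ W : Finset R, a * P.card + W.card ≤ 2 * m → 0 ≤ Phi h U P W)
    (big : ∀ P ⊆ A, ∀ W : Finset R, m < a * P.card + W.card → a * P.card + W.card ≤ 2 * m →
      0 < Phi h U P W) (T : Finset R) :
    ∃ P ⊆ A, ∃ W : Finset R, a * P.card + W.card ≤ m ∧ Phi h U P W ≤ 0 ∧
      ∀ w ∈ T, w ∉ W → ∀ P' ⊆ A, ∀ W' : Finset R, w ∈ W' → a * P'.card + W'.card ≤ 2 * m →
        1 ≤ Phi h U P' W' := by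
  classical
  let B := T.filter fun w => ∃ P' ⊆ A, ∃ W' : Finset R, w ∈ W' ∧
    a * P'.card + W'.card ≤ 2 * m ∧ Phi h U P' W' ≤ 0
  have hB : ∀ w : R, ∃ P' : Finset O, ∃ W' : Finset R, w ∈ B → (P' ⊆ A ∧ w ∈ W' ∧
      a * P'.card + W'.card ≤ 2 * m ∧ Phi h U P' W' ≤ 0) := by
    intro w
    by_cases hw : w ∈ B
    · obtain ⟨P', h1, W', h2⟩ := (mem_filter.1 hw).2
      exact ⟨P', W', fun _ => ⟨h1, h2⟩⟩
    · exact ⟨∅, ∅, fun h => absurd h hw⟩
  choose Pi Wi hPW using hB
  obtain ⟨P, hPA, W, h1, h2, h3⟩ := uncross h hh U A a m inv B (fun _ => 0) (by simp)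
    (by simpa using big) Pi Wi (fun i hi => ⟨(hPW i hi).1, (hPW i hi).2.2.1, (hPW i hi).2.2.2⟩)
  refine ⟨P, hPA, W, h1, by simpa using h3, ?_⟩
  intro w hwT hwW P' hP' W' hwW' hsz
  by_contra hc
  have hwB : w ∈ B := mem_filter.2 ⟨hwT, P', hP', W', hwW', hsz, by omega⟩
  exact hwW (h2 w hwB (hPW w hwB).2.1)

/-- serving a pending vertex with `c` new resources -/
lemma pend (h : O → Finset R → ℤ) (hh : ∀ o, MS (h o)) (A : Finset O) (a m n : ℕ)
    (Ny : Finset R)
    (hQ : ∀ U : Finset R, U.card ≤ n → ∀ P ⊆ A, ∀ W : Finset R, a * P.card + W.card ≤ 2 * m →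
      (((W \ U).card : ℤ) + a * P.card ≤ 2 * Phi h U P W + U.card)) :
    ∀ (c : ℕ) (U : Finset R), 2 * n + 2 * c ≤ m → U.card + c ≤ n →
      (∀ P ⊆ A, ∀ W : Finset R, a * P.card + W.card ≤ 2 * m →
        df c Ny (W ∪ U) ≤ Phi h U P W) →
      ∃ Q ⊆ Ny, Disjoint Q U ∧ Q.card = c ∧
        ∀ P ⊆ A, ∀ W : Finset R, a * P.card + W.card ≤ 2 * m → 0 ≤ Phi h (U ∪ Q) P W := by
  intro c
  induction c with
  | zero =>
    intro U _ _ hinv
    refine ⟨∅, empty_subset _, by simp, by simp, fun P hP W hW => ?_⟩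
    rw [union_empty]
    exact (df_nonneg _ _ _).trans (hinv P hP W hW)
  | succ c ih =>
    intro U hm hU hinv
    have bigU : ∀ U' : Finset R, U'.card ≤ n → ∀ P ⊆ A, ∀ W : Finset R,
        m < a * P.card + W.card → a * P.card + W.card ≤ 2 * m →
        (c : ℤ) + 1 < Phi h U' P W := by
      intro U' hU' P hP W h1 h2
      have h3 := hQ U' hU' P hP W h2
      have h4 : W.card ≤ (W \ U').card + U'.card := by
        have := card_sdiff_add_card_inter W U'
        have := card_le_card (inter_subset_right (s₁ := W) (s₂ := U'))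
        omega
      have h1' : (m : ℤ) < a * P.card + W.card := by exact_mod_cast h1
      have h4' : (W.card : ℤ) ≤ (W \ U').card + U'.card := by exact_mod_cast h4
      have hm' : 2 * (n : ℤ) + 2 * (c + 1) ≤ m := by exact_mod_cast hm
      have hU'' : (U'.card : ℤ) ≤ n := by exact_mod_cast hU'
      linarith
    obtain ⟨P0, hP0, W0, hs0, hPhi0, hcrit⟩ := crit h hh U A a m
      (fun P hP W hW => (df_nonneg _ _ _).trans (hinv P hP W hW))
      (fun P hP W h1 h2 => by
        have := bigU U (by omega) P hP W h1 h2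
        have : (0 : ℤ) ≤ c := Int.natCast_nonneg c
        linarith) Ny
    have h0 := (hinv P0 hP0 W0 (by omega)).trans hPhi0
    have hpos : 0 < (Ny \ (W0 ∪ U)).card := by
      unfold df at h0; push_cast at h0; omega
    obtain ⟨w, hw⟩ := card_pos.1 hpos
    simp only [mem_sdiff, mem_union, not_or] at hw
    obtain ⟨hwN, hwW, hwU⟩ := hw
    obtain ⟨Q, hQN, hQU, hQc, hQinv⟩ := ih (insert w U) (by omega)
      (by rw [card_insert_of_notMem hwU]; omega) (by
        intro P hP W hsz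
        by_cases hsm : a * P.card + W.card ≤ m
        · have hsz' : a * P.card + (insert w W).card ≤ 2 * m := by
            have := card_insert_le w W
            omega
          have h1 := hcrit w hwN hwW P hP (insert w W) (mem_insert_self _ _) hsz'
          have h2 := hinv P hP (insert w W) hsz'
          rw [Phi_insert_used h U P W hwU]
          have e1 : W ∪ insert w U = insert w W ∪ U := by ext x; simp
          rw [e1]
          unfold df at h2 ⊢
          push_cast at h2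
          omega
        · have := bigU (insert w U) (by rw [card_insert_of_notMem hwU]; omega) P hP W
            (by omega) hsz
          have := df_le c Ny (W ∪ insert w U)
          linarith)
    have hwQ : w ∉ Q := fun hq => (disjoint_left.1 hQU hq) (mem_insert_self _ _)
    refine ⟨insert w Q, insert_subset hwN hQN, ?_, by rw [card_insert_of_notMem hwQ, hQc], ?_⟩
    · rw [disjoint_insert_left]
      exact ⟨hwU, hQU.mono_right (subset_insert _ _)⟩
    · have e1 : U ∪ insert w Q = insert w U ∪ Q := by ext x; simp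
      rw [e1]; exact hQinv

/-- expansion bounds the total deficiency -/
lemma sum_df_le (nb : O → Finset R) (D : ℕ) (P : Finset O) (Z : Finset R)
    (hexp : ∀ P' ⊆ P, 6 * D * P'.card ≤ (P'.biUnion nb).card) :
    2 * ∑ o ∈ P, df (2 * D) (nb o) Z ≤ Z.card := by
  classical
  let P' := P.filter fun o => (nb o \ Z).card < 2 * D
  have h1 : ∑ o ∈ P, df (2 * D) (nb o) Z ≤ 2 * D * P'.card := by
    rw [← sum_filter_add_sum_filter_not P (fun o => (nb o \ Z).card < 2 * D)]
    have e1 : ∑ o ∈ P.filter (fun o => ¬ (nb o \ Z).card < 2 * D), df (2 * D) (nb o) Z = 0 := by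
      refine sum_eq_zero fun o ho => ?_
      have := (mem_filter.1 ho).2
      unfold df; omega
    have e2 : ∑ o ∈ P', df (2 * D) (nb o) Z ≤ ∑ o ∈ P', ((2 * D : ℕ) : ℤ) :=
      sum_le_sum fun o _ => df_le _ _ _
    rw [e1, add_zero]
    refine e2.trans (le_of_eq ?_)
    simp [mul_comm]
  have h2 : (P'.biUnion nb).card ≤ Z.card + 2 * D * P'.card := by
    have : P'.biUnion nb ⊆ Z ∪ P'.biUnion (fun o => nb o \ Z) := by
      intro x hx
      obtain ⟨o, ho, hxo⟩ := mem_biUnion.1 hx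
      by_cases hz : x ∈ Z
      · exact mem_union_left _ hz
      · exact mem_union_right _ (mem_biUnion.2 ⟨o, ho, mem_sdiff.2 ⟨hxo, hz⟩⟩)
    refine (card_le_card this).trans ((card_union_le _ _).trans ?_)
    refine Nat.add_le_add_left (card_biUnion_le.trans ?_) _
    rw [mul_comm]
    exact sum_le_card_nsmul _ _ _ fun o ho => le_of_lt (mem_filter.1 ho).2
  have h3 := hexp P' (filter_subset _ _)
  have h4 : 4 * D * P'.card ≤ Z.card := by nlinarith
  have h4' : 4 * (D : ℤ) * P'.card ≤ Z.card := by exact_mod_cast h4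
  linarith

end Pot

end Pool.Agent.H884Z.SR
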