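import Pool.Agent.H884Z.SR.Pot

set_option autoImplicit false
set_option linter.unusedSectionVars false

namespace Pool.Agent.H884Z.SR

open Finset

lemma pend' {O R : Type} [DecidableEq O] [DecidableEq R]
    (h : O → Finset R → ℤ) (hh : ∀ o, MS (h o)) (A : Finset O) (a m n : ℕ)
    (Ny : Finset R)
    (hQ : ∀ U : Finset R, U.card ≤ n → ∀ P ⊆ A, ∀ W : Finset R, a * P.card + W.card ≤ 2 * m →
      (((W \ U).card : ℤ) + a * P.card ≤ 2 * Phi h U P W + U.card))
    (c : ℕ) (U : Finset R) (hm : 2 * n + 2 * c ≤ m) (hU : U.card + c ≤ n)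
    (hinv : ∀ P ⊆ A, ∀ W : Finset R, a * P.card + W.card ≤ m →
        df c Ny (W ∪ U) ≤ Phi h U P W) :
    ∃ Q ⊆ Ny, Disjoint Q U ∧ Q.card = c ∧
        ∀ P ⊆ A, ∀ W : Finset R, a * P.card + W.card ≤ 2 * m → 0 ≤ Phi h (U ∪ Q) P W := by
  refine pend h hh A a m n Ny hQ c U hm hU fun P hP W hW => ?_
  by_cases hs : a * P.card + W.card ≤ m
  · exact hinv P hP W hs
  · have h3 := hQ U (by omega) P hP W hW
    have h4 : W.card ≤ (W \ U).card + U.card := by
      have := card_sdiff_add_card_inter W U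
      have := card_le_card (inter_subset_right (s₁ := W) (s₂ := U))
      omega
    have h1' : (m : ℤ) < a * P.card + W.card := by exact_mod_cast (not_le.1 hs)
    have h4' : (W.card : ℤ) ≤ (W \ U).card + U.card := by exact_mod_cast h4
    have hm' : 2 * (n : ℤ) + 2 * c ≤ m := by exact_mod_cast hm
    have hU'' : (U.card : ℤ) + c ≤ n := by exact_mod_cast hU
    have := df_le c Ny (W ∪ U)
    have : (0 : ℤ) ≤ c := Int.natCast_nonneg c
    linarith

lemma card_union_eq' {R : Type} [DecidableEq R] (W U : Finset R) :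
    (W ∪ U).card = (W \ U).card + U.card := (card_sdiff_add_card W U).symm

section Strat

variable {X Y : Type} [Fintype X] [Fintype Y] [DecidableEq X] [DecidableEq Y]

def nb1 (H : Finset (X × Y)) (x : X) : Finset Y := univ.filter fun y => (x, y) ∈ H
def nb2 (H : Finset (X × Y)) (y : Y) : Finset X := univ.filter fun x => (x, y) ∈ H

@[simp] lemma mem_nb1 {H : Finset (X × Y)} {x : X} {y : Y} : y ∈ nb1 H x ↔ (x, y) ∈ H := by
  simp [nb1]
@[simp] lemma mem_nb2 {H : Finset (X × Y)} {x : X} {y : Y} : x ∈ nb2 H y ↔ (x, y) ∈ H := by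
  simp [nb2]

def Strat (H : Finset (X × Y)) (n ρ k : ℕ) : Prop :=
  ∃ Inv : Finset X → Finset Y → (X → ℕ) → Prop, (∃ x0, Inv {x0} ∅ (fun _ => 0)) ∧
    ∀ U1 U2 us x c, Inv U1 U2 us → x ∈ U1 → us x < k * ρ → c ≤ k → U1.card + c ≤ n →
      U2.card < ρ * n → ∃ y, y ∉ U2 ∧ (x, y) ∈ H ∧ ∃ Q : Finset X, Disjoint Q U1 ∧ Q.card = c ∧
        (∀ w ∈ Q, (w, y) ∈ H) ∧ Inv (U1 ∪ Q) (insert y U2) (Function.update us x (us x + 1))

def Or2 (H : Finset (X × Y)) (n ρ k : ℕ) : Prop :=
  ∃ I2 : Finset X → Finset Y → (X → ℕ) → Prop, (∀ x0, I2 {x0} ∅ (fun _ => 0)) ∧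
    ∀ U1 U2 us x c (Cand : Finset Y), I2 U1 U2 us → x ∈ H.image Prod.fst → us x < k * ρ →
      c ≤ k → U1.card + c ≤ n → Cand ⊆ nb1 H x \ U2 → 30 * (k * ρ) ≤ Cand.card →
      ∃ y ∈ Cand, ∃ Q ⊆ nb2 H y, Disjoint Q U1 ∧ Q.card = c ∧
        I2 (U1 ∪ Q) (insert y U2) (Function.update us x (us x + 1))

def E1 (H : Finset (X × Y)) (n ρ k : ℕ) : Prop :=
  ∀ S ⊆ H.image Prod.fst, k * S.card ≤ 2 * n → 186 * (k * ρ) * S.card ≤ (S.biUnion (nb1 H)).card

def EA (H : Finset (X × Y)) (n k : ℕ) : Prop :=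
  ∀ J ⊆ H.image Prod.snd, k * J.card ≤ 8 * n → 6 * k * J.card ≤ (J.biUnion (nb2 H)).card

def EB1 (H : Finset (X × Y)) (n ρ k : ℕ) : Prop :=
  ∀ x, ∀ Z : Finset X, Z.card ≤ n →
    ((nb1 H x).filter fun y => (nb2 H y \ Z).card < 2 * k).card < k * ρ

def EB2 (H : Finset (X × Y)) (n ρ k : ℕ) : Prop :=
  k * (k * ρ) ≤ n ∧ ∀ (P : Finset X) (Z : Finset X) (s : ℕ), P.card ≤ s →
    Z.card ≤ 28 * (k * (k * ρ)) * s → k * (k * ρ) * s ≤ 126 * n →
    ∑ x ∈ P, ((nb1 H x).filter fun y => (nb2 H y \ Z).card < 2 * k).card ≤ 7 * (k * ρ) * s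

lemma Phi_update {O R : Type} [DecidableEq O] [DecidableEq R] (f : O → Finset R → ℤ) (t : ℤ)
    (us : O → ℕ) (x : O) (U : Finset R) (P : Finset O) (W : Finset R) :
    Phi (fun o Z => f o Z + -(t * (Function.update us x (us x + 1) o : ℕ))) U P W =
      Phi (fun o Z => f o Z + -(t * (us o : ℕ))) U P W + if x ∈ P then t else 0 := by
  unfold Phi
  simp only [sum_add_distrib, sum_neg_distrib, ← mul_sum]
  have : ∑ o ∈ P, ((Function.update us x (us x + 1) o : ℕ) : ℤ) =
      ∑ o ∈ P, (us o : ℤ) + if x ∈ P then 1 else 0 := by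
    split_ifs with hx
    · rw [← add_sum_erase P _ hx, ← add_sum_erase P (fun o => (us o : ℤ)) hx]
      have : ∑ o ∈ P.erase x, ((Function.update us x (us x + 1) o : ℕ) : ℤ) =
          ∑ o ∈ P.erase x, (us o : ℤ) :=
        sum_congr rfl fun o ho => by rw [Function.update_of_ne (ne_of_mem_erase ho)]
      rw [this]; simp; ring
    · rw [add_zero]
      exact sum_congr rfl fun o ho => by
        rw [Function.update_of_ne (by rintro rfl; exact hx ho)]
  rw [this]
  split_ifs <;> ring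

/-- the first level -/
lemma strat_of (H : Finset (X × Y)) (n ρ k : ℕ) (hH : H.Nonempty) (hk : 1 ≤ k) (hρ : 1 ≤ ρ)
    (hkn : k ≤ n) (h1 : E1 H n ρ k) (h2 : Or2 H n ρ k) : Strat H n ρ k := by
  obtain ⟨I2, hI0, hI⟩ := h2
  set D := 31 * (k * ρ) with hD
  set m := 31 * (ρ * n) with hm
  let f : X → Finset Y → ℤ := fun x Z => df (2 * D) (nb1 H x) Z + -(D : ℤ)
  let h : (X → ℕ) → X → Finset Y → ℤ := fun us x Z => f x Z + -(1 * (us x : ℕ))
  have hh : ∀ us x, MS (h us x) := fun us x =>
    ((MS_df (2 * D) (nb1 H x)).add_const _).add_const _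
  have hDm : D ≤ m := by
    rw [hD, hm, mul_comm ρ n]; exact Nat.mul_le_mul_left _ (Nat.mul_le_mul_right _ hkn)
  have hρn : 1 ≤ ρ * n := Nat.mul_pos hρ (by omega)
  have hQ : ∀ us (U : Finset Y), ∀ S ⊆ H.image Prod.fst, ∀ T : Finset Y,
      D * S.card + T.card ≤ 2 * m →
      ((T \ U).card : ℤ) + D * S.card ≤ 2 * Phi (h us) U S T + U.card := by
    intro us U S hS T hsz
    have hkS : k * S.card ≤ 2 * n := by
      have : 31 * ρ * (k * S.card) ≤ 31 * ρ * (2 * n) := by
        have : D * S.card ≤ 2 * m := by omega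
        rw [hD, hm] at this; nlinarith
      exact Nat.le_of_mul_le_mul_left this (by omega)
    have h3 := sum_df_le (nb1 H) D S (T ∪ U) (fun P' hP' => by
      have := h1 P' (hP'.trans hS) ((Nat.mul_le_mul_left _ (card_le_card hP')).trans hkS)
      rw [hD]; linarith)
    rw [card_union_eq'] at h3
    push_cast at h3
    have h4 : (0 : ℤ) ≤ ∑ o ∈ S, (us o : ℤ) := sum_nonneg fun _ _ => Int.natCast_nonneg _
    have h5 : (0 : ℤ) ≤ (D : ℤ) * S.card := by positivity
    unfold Phi
    simp only [h, f, sum_add_distrib, sum_neg_distrib, sum_const, one_mul, nsmul_eq_mul]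
    linarith
  have hbig : ∀ us (U : Finset Y), U.card ≤ ρ * n → ∀ S ⊆ H.image Prod.fst, ∀ T : Finset Y,
      m < D * S.card + T.card → D * S.card + T.card ≤ 2 * m → 0 < Phi (h us) U S T := by
    intro us U hU S hS T h3 h4
    have h5 := hQ us U S hS T h4
    have h6 : T.card ≤ (T \ U).card + U.card := by
      rw [← card_union_eq']; exact card_le_card subset_union_left
    have h3' : (m : ℤ) < D * S.card + T.card := by exact_mod_cast h3
    have h6' : (T.card : ℤ) ≤ (T \ U).card + U.card := by exact_mod_cast h6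
    have h7 : 2 * U.card ≤ m := by omega
    have h7' : 2 * (U.card : ℤ) ≤ m := by exact_mod_cast h7
    linarith
  let I1 : Finset Y → (X → ℕ) → Prop := fun U2 us => ∀ S ⊆ H.image Prod.fst, ∀ T : Finset Y,
    D * S.card + T.card ≤ 2 * m → 0 ≤ Phi (h us) U2 S T
  refine ⟨fun U1 U2 us => U1 ⊆ H.image Prod.fst ∧ I1 U2 us ∧ I2 U1 U2 us, ?_, ?_⟩
  · obtain ⟨e, he⟩ := hH
    refine ⟨e.1, by simpa using ⟨e.2, he⟩, ?_, hI0 _⟩
    intro S hS T hsz
    have := hQ (fun _ => 0) ∅ S hS T hsz
    have h5 : (0 : ℤ) ≤ (D : ℤ) * S.card := by positivity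
    simp only [card_empty, Nat.cast_zero, add_zero] at this
    have : (0 : ℤ) ≤ ((T \ ∅).card : ℤ) := Int.natCast_nonneg _
    linarith
  · rintro U1 U2 us x c ⟨hU1, hinv1, hinv2⟩ hx hus hc hn1 hn2
    have hxX := hU1 hx
    obtain ⟨P0, hP0, W0, hs0, hPhi0, hcrit⟩ := crit (h us) (hh us) U2 ((H.image Prod.fst).erase x)
      D m (fun P hP => hinv1 P (hP.trans (erase_subset _ _)))
      (fun P hP => hbig us U2 hn2.le P (hP.trans (erase_subset _ _))) (nb1 H x)
    have hxP0 : x ∉ P0 := fun hc => by simpa using hP0 hc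
    have h3 := hinv1 (insert x P0) (insert_subset hxX (hP0.trans (erase_subset _ _))) W0 (by
      rw [card_insert_of_notMem hxP0, mul_add]; omega)
    rw [Phi_insert_agent _ _ _ _ hxP0] at h3
    have h4 : 30 * (k * ρ) ≤ (nb1 H x \ (W0 ∪ U2)).card := by
      have : h us x (W0 ∪ U2) ≤ 0 := by linarith
      simp only [h, f, df] at this
      omega
    obtain ⟨y, hyC, Q, hQN, hQU, hQc, hQI⟩ := hI U1 U2 us x c (nb1 H x \ (W0 ∪ U2)) hinv2 hxX hus
      hc hn1 (sdiff_subset_sdiff (subset_refl _) subset_union_right) h4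
    simp only [mem_sdiff, mem_union, not_or] at hyC
    obtain ⟨hyN, hyW, hyU⟩ := hyC
    refine ⟨y, hyU, mem_nb1.1 hyN, Q, hQU, hQc, fun w hw => mem_nb2.1 (hQN hw), ?_, ?_, hQI⟩
    · refine union_subset hU1 fun w hw => ?_
      exact mem_image.2 ⟨(w, y), mem_nb2.1 (hQN hw), rfl⟩
    · intro S hS T hsz
      by_cases hsm : D * S.card + T.card ≤ m
      · have hsz' : D * S.card + (insert y T).card ≤ 2 * m := by
          have := card_insert_le y T
          omega
        rw [Phi_insert_used _ _ _ _ hyU]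
        simp only [h]
        rw [Phi_update f 1 us x]
        split_ifs with hxS
        · have := hinv1 S hS _ hsz'
          simp only [h] at this
          linarith
        · have := hcrit y hyN hyW S (fun o ho => mem_erase.2 ⟨by rintro rfl; exact hxS ho, hS ho⟩)
            _ (mem_insert_self _ _) hsz'
          simp only [h] at this
          linarith
      · exact (hbig _ _ (by rw [card_insert_of_notMem hyU]; omega) S hS T (by omega) hsz).le

lemma or2_B1 (H : Finset (X × Y)) (n ρ k : ℕ) (h1 : EB1 H n ρ k) : Or2 H n ρ k := by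
  refine ⟨fun _ _ _ => True, fun _ => trivial, ?_⟩
  intro U1 U2 us x c Cand _ hx hus hc hn hC hCc
  have h2 := h1 x U1 (by omega)
  have : ∃ y ∈ Cand, y ∉ (nb1 H x).filter fun y => (nb2 H y \ U1).card < 2 * k := by
    by_contra hc
    push Not at hc
    have := card_le_card hc
    omega
  obtain ⟨y, hy, hy2⟩ := this
  have hyN : y ∈ nb1 H x := (mem_sdiff.1 (hC hy)).1
  have h3 : c ≤ (nb2 H y \ U1).card := by
    by_contra hc'
    exact hy2 (mem_filter.2 ⟨hyN, by omega⟩)
  obtain ⟨Q, hQ, hQc⟩ := exists_subset_card_eq h3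
  refine ⟨y, hy, Q, hQ.trans sdiff_subset, ?_, hQc, trivial⟩
  exact disjoint_left.2 fun w hw => (mem_sdiff.1 (hQ hw)).2

lemma or2_A (H : Finset (X × Y)) (n ρ k : ℕ) (hk : 1 ≤ k) (hρ : 1 ≤ ρ)
    (hkn : k ≤ n) (h1 : EA H n k) : Or2 H n ρ k := by
  let h : Y → Finset X → ℤ := fun y Z => df (2 * k) (nb2 H y) Z + -(k : ℤ)
  have hh : ∀ y, MS (h y) := fun y => (MS_df (2 * k) (nb2 H y)).add_const _
  have hQ : ∀ (U : Finset X), ∀ J ⊆ H.image Prod.snd, ∀ W : Finset X,
      k * J.card + W.card ≤ 2 * (4 * n) →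
      ((W \ U).card : ℤ) + k * J.card ≤ 2 * Phi h U J W + U.card := by
    intro U J hJ W hsz
    have h3 := sum_df_le (nb2 H) k J (W ∪ U) (fun P' hP' => by
      have := Nat.mul_le_mul_left k (card_le_card hP')
      exact h1 P' (hP'.trans hJ) (by omega))
    rw [card_union_eq'] at h3
    push_cast at h3
    have h5 : (0 : ℤ) ≤ (k : ℤ) * J.card := by positivity
    unfold Phi
    simp only [h, sum_add_distrib, sum_neg_distrib, sum_const, nsmul_eq_mul]
    linarith
  refine ⟨fun U1 U2 _ => ∀ J ⊆ H.image Prod.snd \ U2, ∀ W : Finset X,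
    k * J.card + W.card ≤ 2 * (4 * n) → 0 ≤ Phi h U1 J W, ?_, ?_⟩
  · intro x0 J hJ W hsz
    have := hQ {x0} J (hJ.trans sdiff_subset) W hsz
    have h5 : (0 : ℤ) ≤ (k : ℤ) * J.card := by positivity
    have h6 : (0 : ℤ) ≤ ((W \ {x0}).card : ℤ) := Int.natCast_nonneg _
    simp only [card_singleton, Nat.cast_one] at this
    omega
  · intro U1 U2 us x c Cand hinv hx hus hc hn hC hCc
    have hpos : 0 < Cand.card := by
      have : 0 < k * ρ := Nat.mul_pos hk hρ
      omega
    obtain ⟨y, hy⟩ := card_pos.1 hpos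
    have hy' := mem_sdiff.1 (hC hy)
    have hyY : y ∈ H.image Prod.snd \ U2 :=
      mem_sdiff.2 ⟨mem_image.2 ⟨(x, y), mem_nb1.1 hy'.1, rfl⟩, hy'.2⟩
    have hsub : H.image Prod.snd \ insert y U2 ⊆ H.image Prod.snd \ U2 :=
      sdiff_subset_sdiff (subset_refl _) (subset_insert _ _)
    obtain ⟨Q, hQN, hQU, hQc, hQI⟩ := pend' h hh (H.image Prod.snd \ insert y U2) k (4 * n) n
      (nb2 H y) (fun U _ P hP W hW => hQ U P (hP.trans sdiff_subset) W hW) c U1 (by omega) hn (by
        intro P hP W hsz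
        have hyP : y ∉ P := fun hc => by simpa using hP hc
        have h3 := hinv P (hP.trans hsub) W (by omega)
        have h4 := hinv (insert y P) (insert_subset hyY (hP.trans hsub)) W (by
          rw [card_insert_of_notMem hyP, mul_add]; omega)
        rw [Phi_insert_agent _ _ _ _ hyP] at h4
        generalize Phi h U1 P W = t at h3 h4 ⊢
        simp only [h, df] at h4 ⊢
        push_cast at h4
        omega)
    exact ⟨y, hy, Q, hQN, hQU, hQc, hQI⟩

lemma or2_B2 (H : Finset (X × Y)) (n ρ k : ℕ) (hk : 1 ≤ k) (hρ : 1 ≤ ρ)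
    (h1 : EB2 H n ρ k) : Or2 H n ρ k := by
  classical
  obtain ⟨han, h1⟩ := h1
  set b := k * ρ with hb
  set a := k * b with ha
  have hb1 : 1 ≤ b := Nat.mul_pos hk hρ
  have ha1 : 1 ≤ a := Nat.mul_pos hk hb1
  have hka : k ≤ a := Nat.le_mul_of_pos_right _ hb1
  let f : X → Finset X → ℤ := fun x Z => ∑ y ∈ nb1 H x, df (2 * k) (nb2 H y) Z + -(29 * (a : ℤ))
  let h : (X → ℕ) → X → Finset X → ℤ := fun us x Z => f x Z + -(k * (us x : ℕ))
  have hh : ∀ us x, MS (h us x) := fun us x =>
    ((MS_sum (nb1 H x) (fun y => df (2 * k) (nb2 H y)) fun y => MS_df _ _).add_const _).add_const _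
  have hQ : ∀ us (U : Finset X), U.card ≤ n → ∀ P W : Finset X,
      a * P.card + W.card ≤ 2 * (62 * n) →
      ((W \ U).card : ℤ) + a * P.card ≤ 2 * Phi (h us) U P W + U.card := by
    intro us U hU P W hsz
    rcases P.eq_empty_or_nonempty with rfl | hP
    · simp only [Phi, card_empty, sum_empty]
      have : (0 : ℤ) ≤ ((W \ U).card : ℤ) := Int.natCast_nonneg _
      have : (0 : ℤ) ≤ (U.card : ℤ) := Int.natCast_nonneg _
      push_cast; linarith
    have hP1 : 1 ≤ P.card := card_pos.2 hP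
    set Z := W ∪ U with hZ
    have hZc : Z.card = (W \ U).card + U.card := card_union_eq' W U
    have hZle : Z.card ≤ 125 * n := by
      have : Z.card ≤ W.card + U.card := card_union_le W U
      omega
    set q := Z.card / (28 * a) with hq
    have hq1 : 28 * a * q ≤ Z.card := Nat.mul_div_le _ _
    have hq2 : Z.card < 28 * a * (q + 1) := by
      have := Nat.lt_mul_div_succ Z.card (show 0 < 28 * a by omega)
      exact this
    set s := max P.card (q + 1) with hs
    have hs1 : Z.card ≤ 28 * a * s :=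
      hq2.le.trans (Nat.mul_le_mul_left _ (le_max_right _ _))
    have hs2 : a * s ≤ a * P.card + a * q + a := by
      rcases le_total P.card (q + 1) with hle | hle
      · rw [hs, max_eq_right hle, mul_add]; omega
      · rw [hs, max_eq_left hle]; omega
    have hs3 : a * s ≤ 126 * n := by
      rcases le_total P.card (q + 1) with hle | hle
      · rw [hs, max_eq_right hle, mul_add]
        have : 28 * (a * q) ≤ Z.card := by rw [← mul_assoc]; exact hq1
        omega
      · rw [hs, max_eq_left hle]; omega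
    have h3 := h1 P Z s (le_max_left _ _) hs1 hs3
    have h4 : ∀ x, ∑ y ∈ nb1 H x, df (2 * k) (nb2 H y) Z ≤
        2 * k * (((nb1 H x).filter fun y => (nb2 H y \ Z).card < 2 * k).card : ℤ) := by
      intro x
      rw [← sum_filter_add_sum_filter_not (nb1 H x) (fun y => (nb2 H y \ Z).card < 2 * k)]
      have e1 : ∑ y ∈ (nb1 H x).filter (fun y => ¬ (nb2 H y \ Z).card < 2 * k),
          df (2 * k) (nb2 H y) Z = 0 := by
        refine sum_eq_zero fun o ho => ?_
        have := (mem_filter.1 ho).2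
        unfold df; omega
      rw [e1, add_zero]
      refine (sum_le_sum fun o _ => df_le _ _ _).trans (le_of_eq ?_)
      simp [mul_comm]
    have h5 : ∑ x ∈ P, ∑ y ∈ nb1 H x, df (2 * k) (nb2 H y) Z ≤ 14 * ((a * s : ℕ) : ℤ) := by
      refine (sum_le_sum fun x _ => h4 x).trans ?_
      rw [← mul_sum]
      have h3' : ∑ x ∈ P, (((nb1 H x).filter fun y => (nb2 H y \ Z).card < 2 * k).card : ℤ) ≤
          7 * b * s := by exact_mod_cast h3
      calc _ ≤ 2 * (k : ℤ) * (7 * b * s) := mul_le_mul_of_nonneg_left h3' (by positivity)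
        _ = _ := by rw [ha]; push_cast; ring
    have h6 : (0 : ℤ) ≤ k * ∑ o ∈ P, (us o : ℤ) :=
      mul_nonneg (Int.natCast_nonneg _) (sum_nonneg fun _ _ => Int.natCast_nonneg _)
    have h7 : a ≤ a * P.card := Nat.le_mul_of_pos_right _ hP1
    have h8 : 28 * (a * q) ≤ (W \ U).card + U.card := by rw [← mul_assoc, ← hZc]; exact hq1
    have h9 : 28 * (a * s) ≤ 56 * (a * P.card) + (W \ U).card + U.card := by omega
    have h9' : 28 * ((a * s : ℕ) : ℤ) ≤ 56 * (a * P.card) + (W \ U).card + U.card := by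
      exact_mod_cast h9
    have h10 : (0 : ℤ) ≤ (a : ℤ) * P.card := by positivity
    unfold Phi
    simp only [h, f, sum_add_distrib, sum_neg_distrib, sum_const, nsmul_eq_mul, ← mul_sum, ← hZ]
    linarith
  refine ⟨fun U1 _ us => ∀ P W : Finset X,
    a * P.card + W.card ≤ 2 * (62 * n) → 0 ≤ Phi (h us) U1 P W, ?_, ?_⟩
  · intro x0 P W hsz
    have := hQ (fun _ => 0) {x0} (by simp; omega) P W hsz
    have h5 : (0 : ℤ) ≤ (a : ℤ) * P.card := by positivity
    have h6 : (0 : ℤ) ≤ ((W \ {x0}).card : ℤ) := Int.natCast_nonneg _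
    simp only [card_singleton, Nat.cast_one] at this
    omega
  · intro U1 U2 us x c Cand hinv hx hus hc hn hC hCc
    obtain ⟨B, hBC, hBc⟩ := exists_subset_card_eq hCc
    have hBN : B ⊆ nb1 H x := hBC.trans (hC.trans sdiff_subset)
    have hgood : ∃ y ∈ B, ∀ P ⊆ univ.erase x, ∀ W : Finset X,
        a * P.card + W.card ≤ 2 * (62 * n) → df c (nb2 H y) (W ∪ U1) ≤ Phi (h us) U1 P W := by
      by_contra hcon
      push Not at hcon
      have hcon' : ∀ y : Y, ∃ P : Finset X, ∃ W : Finset X, y ∈ B → (P ⊆ univ.erase x ∧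
          a * P.card + W.card ≤ 2 * (62 * n) ∧
          Phi (h us) U1 P W < df c (nb2 H y) (W ∪ U1)) := by
        intro y
        by_cases hy : y ∈ B
        · obtain ⟨P, hP, W, hW⟩ := hcon y hy
          exact ⟨P, W, fun _ => ⟨hP, hW⟩⟩
        · exact ⟨∅, ∅, fun h => absurd h hy⟩
      choose Pi Wi hPW using hcon'
      let g : Y → ℤ := fun y => df c (nb2 H y) (Wi y ∪ U1) - 1
      have hg0 : ∀ y ∈ B, 0 ≤ g y := by
        intro y hy
        have := hinv _ _ (hPW y hy).2.1
        have := (hPW y hy).2.2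
        simp only [g]; omega
      have hgs : ∑ y ∈ B, g y ≤ 30 * (n : ℤ) := by
        have h3 : ∑ y ∈ B, g y ≤ ∑ y ∈ B, (k : ℤ) := sum_le_sum fun y _ => by
          have := df_le c (nb2 H y) (Wi y ∪ U1)
          simp only [g]; omega
        rw [sum_const, hBc, nsmul_eq_mul] at h3
        have : 30 * b * k ≤ 30 * n := by nlinarith
        have : ((30 * b : ℕ) : ℤ) * k ≤ 30 * n := by exact_mod_cast this
        linarith
      obtain ⟨P, hP, W, hsz, hW, hPhi⟩ := uncross (h us) (hh us) U1 (univ.erase x) a (62 * n)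
        (fun P _ W hW => hinv P W hW) B g hg0 (by
          intro P _ W h3 h4
          have h5 := hQ us U1 (by omega) P W h4
          have h6 : W.card ≤ (W \ U1).card + U1.card := by
            rw [← card_union_eq']; exact card_le_card subset_union_left
          have h3' : ((62 * n : ℕ) : ℤ) < a * P.card + W.card := by exact_mod_cast h3
          have h6' : (W.card : ℤ) ≤ (W \ U1).card + U1.card := by exact_mod_cast h6
          have h7' : (U1.card : ℤ) ≤ n := by exact_mod_cast (by omega : U1.card ≤ n)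
          push_cast at h3'
          linarith) Pi Wi (fun y hy => ⟨(hPW y hy).1, (hPW y hy).2.1, by
            have := (hPW y hy).2.2
            simp only [g]; omega⟩)
      have hxP : x ∉ P := fun hc => by simpa using hP hc
      have h3 := hinv (insert x P) W (by rw [card_insert_of_notMem hxP, mul_add]; omega)
      rw [Phi_insert_agent _ _ _ _ hxP] at h3
      have h4 : ∑ y ∈ B, df (2 * k) (nb2 H y) (W ∪ U1) ≤
          ∑ y ∈ nb1 H x, df (2 * k) (nb2 H y) (W ∪ U1) :=
        sum_le_sum_of_subset_of_nonneg hBN fun _ _ _ => df_nonneg _ _ _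
      have h5 : ∑ y ∈ B, (g y + (k + 1)) ≤ ∑ y ∈ B, df (2 * k) (nb2 H y) (W ∪ U1) := by
        refine sum_le_sum fun y hy => ?_
        have h6 := hg0 y hy
        have h7 := card_sdiff_anti (nb2 H y) (union_subset_union (hW y hy) (subset_refl U1))
        simp only [g, df] at h6 ⊢
        push_cast
        omega
      rw [sum_add_distrib, sum_const, hBc, nsmul_eq_mul] at h5
      have h6 : (k : ℤ) * us x ≤ a := by
        have : k * us x ≤ a := Nat.mul_le_mul_left _ hus.le
        exact_mod_cast this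
      have h7 : ((30 * b : ℕ) : ℤ) * (k + 1) = 30 * a + 30 * b := by
        rw [ha]; push_cast; ring
      have h8 : (1 : ℤ) ≤ b := by exact_mod_cast hb1
      simp only [h, f] at h3 hPhi
      linarith
    obtain ⟨y, hy, hyg⟩ := hgood
    obtain ⟨Q, hQN, hQU, hQc, hQI⟩ := pend' (h (Function.update us x (us x + 1))) (hh _) univ a
      (62 * n) n (nb2 H y) (fun U hU P _ W hW => hQ _ U hU P W hW) c U1 (by omega) hn (by
        intro P _ W hsz
        simp only [h]
        rw [Phi_update f k us x]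
        split_ifs with hxP
        · have h3 := hinv P W (by omega)
          have h4 := df_le c (nb2 H y) (W ∪ U1)
          have h5 : (c : ℤ) ≤ k := by exact_mod_cast hc
          simp only [h] at h3
          linarith
        · have := hyg P (fun o ho => mem_erase.2 ⟨by rintro rfl; exact hxP ho, mem_univ _⟩) W
            (by omega)
          simp only [h] at this
          linarith)
    exact ⟨y, hBC hy, Q, hQN, hQU, hQc, fun P W hW => hQI P (subset_univ _) W hW⟩

end Strat

end Pool.Agent.H884Z.SR
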